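import Mathlib

/-!
# Project SM (MP_c307ca_nt): sharp average Lang inequality for Moebius images.  Definitions.
-/

set_option autoImplicit false

namespace Pool.Agent.Helper73.SM

open Finset

/-- A `2 × 2` integer matrix, as the pair of its rows. -/
abbrev Mat : Type := (ℤ × ℤ) × (ℤ × ℤ)

/-- the linear form `v ↦ v₀ ξ + v₁` -/
def lf (ξ : ℝ) (v : ℤ × ℤ) : ℝ := (v.1 : ℝ) * ξ + (v.2 : ℝ)

/-- the determinant of two integer vectors -/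
def dt (u v : ℤ × ℤ) : ℤ := u.1 * v.2 - u.2 * v.1

/-- the row vector `u g` -/
def cmb (u : ℤ × ℤ) (g : Mat) : ℤ × ℤ :=
  (u.1 * g.1.1 + u.2 * g.2.1, u.1 * g.1.2 + u.2 * g.2.2)

/-- the matrices with entries in `[-H, H]` -/
noncomputable def box (H : ℕ) : Finset Mat :=
  ((Icc (-(H : ℤ)) H) ×ˢ (Icc (-(H : ℤ)) H)) ×ˢ ((Icc (-(H : ℤ)) H) ×ˢ (Icc (-(H : ℤ)) H))

/-- `η = g ξ` has a fraction `p / q` with `Q ≤ q ≤ R` and `|η - p/q| ≤ c / (q² (log q)^(1+ε))` -/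
def bad (ε c Q R ξ : ℝ) (g : Mat) : Prop :=
  ∃ (p : ℤ) (q : ℕ), Q ≤ (q : ℝ) ∧ (q : ℝ) ≤ R ∧
    |lf ξ g.1 / lf ξ g.2 - (p : ℝ) / (q : ℝ)| ≤ c / ((q : ℝ) ^ 2 * Real.log (q : ℝ) ^ (1 + ε))

/-- The classes of matrices which are counted: `max |g_i w| ≤ M`, and some primitive `u` with
`|u|` about `m` has `u g` in a parallelogram of area `16 lam |det g|`. -/
def Cls (ξ M m lam : ℝ) (g : Mat) : Prop :=
  |lf ξ g.1| ≤ M ∧ |lf ξ g.2| ≤ M ∧ dt g.1 g.2 ≠ 0 ∧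
    ∃ u : ℤ × ℤ, IsCoprime u.1 u.2 ∧
      |((cmb u g).1 : ℝ)| ≤ 8 * m * |(dt g.1 g.2 : ℝ)| / M ∧
      |lf ξ (cmb u g)| ≤ 2 * lam * M / m

/-- the weights of the classes -/
noncomputable def sz (ε Q₁ : ℝ) (i : ℕ) : ℝ :=
  min 1 (((2 : ℝ) ^ (i + 1) / Q₁) ^ 2) * (2 / Real.log (max ((2 : ℝ) ^ i) Q₁)) ^ (1 + ε)

/-! ## Real vectors -/

/-- sup norm -/
def nm (v : ℝ × ℝ) : ℝ := max |v.1| |v.2|

/-- the determinant of two real vectors -/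
def dr (u v : ℝ × ℝ) : ℝ := u.1 * v.2 - u.2 * v.1

/-- `a u + b v` -/
def cb (a b : ℤ) (u v : ℝ × ℝ) : ℝ × ℝ :=
  ((a : ℝ) * u.1 + (b : ℝ) * v.1, (a : ℝ) * u.2 + (b : ℝ) * v.2)

/-! ## Padé approximants of `(1 + x)^ν` -/

/-- numerator -/
noncomputable def PA (ν : ℝ) (n : ℕ) (x : ℝ) : ℝ :=
  ∑ j ∈ range (n + 1), Ring.choose ((n : ℝ) + ν) j * ((2 * n - j).choose n : ℝ) * x ^ j

/-- denominator -/
noncomputable def PB (ν : ℝ) (n : ℕ) (x : ℝ) : ℝ :=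
  ∑ j ∈ range (n + 1), Ring.choose ((n : ℝ) - ν) j * ((2 * n - j).choose n : ℝ) * x ^ j

end Pool.Agent.Helper73.SM
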