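import Mathlib
import Pool.Agent.Helper73.SM.Defs

/-!
# Project KR (MP_c307ca_nt): the numbers `(1 + 1/N)^(m/k)`.  Definitions.
-/

set_option autoImplicit false

namespace Pool.Agent.Helper73.SM

open Finset

/-- `k^(2j) (n + s/k choose j)`, an integer -/
def ck (k : ℕ) (s : ℤ) (n j : ℕ) : ℤ :=
  ((k : ℤ) ^ j * ∏ i ∈ range j, ((k : ℤ) * (n : ℤ) + s - (k : ℤ) * (i : ℤ))) / (j.factorial : ℤ)

/-- the integer Padé polynomials at `N`: numerator `s = m`, denominator `s = -m` -/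
def PK (k : ℕ) (s : ℤ) (n : ℕ) (N : ℤ) : ℤ :=
  ∑ j ∈ range (n + 1), ck k s n j * ((2 * n - j).choose n : ℤ) * ((k : ℤ) ^ 2 * N) ^ (n - j)

/-- the greatest common divisor of numerator and denominator -/
def GK (k m n : ℕ) (N : ℤ) : ℕ := Int.gcd (PK k (m : ℤ) n N) (PK k (-(m : ℤ)) n N)

/-- the determinant of two consecutive approximants -/
def DK (k m n : ℕ) : ℤ :=
  (2 * (m : ℤ) * (k : ℤ) * ck k (m : ℤ) n n * ck k (-(m : ℤ)) n n) / ((n : ℤ) + 1)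

/-- `(1 + 1/N)^(m/k)` -/
noncomputable def xk (k m N : ℕ) : ℝ := (1 + 1 / (N : ℝ)) ^ ((m : ℝ) / (k : ℝ))

/-- the exponents `m/k` -/
def Ok (k m : ℕ) : Prop := 3 ≤ k ∧ 1 ≤ m ∧ m < k ∧ Nat.Coprime m k

/-- `l` is the number in `[1, p/2)` with `k l ≡ ± m` modulo `p` -/
def Lr (k m p l : ℕ) : Prop :=
  1 ≤ l ∧ 2 * l < p ∧ ((p : ℤ) ∣ (k : ℤ) * l + m ∨ (p : ℤ) ∣ (k : ℤ) * l - m)

open Classical in
/-- the primes `p` in `(M, kn + k]` which do not divide `n + 1`, with `l ≤ n mod p < p - l` -/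
noncomputable def RK (k m n M : ℕ) : Finset ℕ :=
  (Ioc M (k * n + k)).filter
    (fun p => p.Prime ∧ ¬ p ∣ n + 1 ∧ ∃ l, Lr k m p l ∧ l ≤ n % p ∧ n % p + l < p)

end Pool.Agent.Helper73.SM
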