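import Mathlib
import Pool.Agent.Helper73.SM.Defs

/-!
# Project SM (MP_c307ca_nt): packets

Final theorem.  Let `ε > 0`.  There is `C(ε)` such that (a) for every real algebraic irrational `ξ` and
every `A`, for all large `H` and all `c > 0`, `Q ≥ 2`, at most `C (c / (log Q)^ε + H^(-1/20)) (2H+1)^4`
of the integer matrices `g` with entries in `[-H, H]` are such that `η = g ξ` violates Lang's inequality
with constant `c` for some `Q ≤ q ≤ H^A`; (b) for `ξ = (1 + 1/N)^(1/k)` the same for all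
`q ≤ exp (c₁ log H log N)`, `H ≥ N^(C₀)`.

Notation of the docstrings: `w = (ξ, 1)`, `v.w = lf ξ v`, `g = (g₁, g₂)` (rows), `x = g₁.w`, `y = g₂.w`,
`n = |dt g₁ g₂|`, `L(q) = (log q)^(1+ε)`.  The identity `dt u v = u₀ (v.w) - v₀ (u.w)` is used all the time.
Hypotheses of a packet which are other packets are taken as hypotheses.
-/

set_option autoImplicit false

namespace Pool.Agent.Helper73.SM

open Finset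

/-! ## Part 1: two-dimensional lattices -/

/-- PACKET RED (reduced basis for the sup norm).
Proof.  `D = |dr u v| > 0`.  For integers `a, b` put `g = a u + b v`; then `a dr u v = dr g v` and
`b dr u v = dr u g`, so `|a| D ≤ 2 nm g nm v`, `|b| D ≤ 2 nm u nm g`: for every bound on `nm g` there are
finitely many `(a, b)`.  Hence there is `(a, b) ≠ 0` with `nm (a u + b v)` minimal among the nonzero pairs;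
`gcd a b = 1` (otherwise divide by it: the norm becomes smaller, and it is positive).  Choose `c, d` with
`a d - b c = 1`; all `(c + t a, d + t b)` have the same property.  Put `g₁ = cb a b u v` and let `s` be a
coordinate (first or second) with `|s-coordinate of g₁| = nm g₁`; choose `t` such that the `s`-coordinate of
`g₂ = cb (c + t a) (d + t b) u v` is at most `nm g₁ / 2` in absolute value (`round`).  `nm g₁ ≤ nm g₂` by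
minimality, so `nm g₂` is the absolute value of the other coordinate, and
`|dr u v| = |dr g₁ g₂| ≥ nm g₁ nm g₂ - (nm g₁ / 2) nm g₁ ≥ nm g₁ nm g₂ / 2` (the other coordinate of `g₁`
is at most `nm g₁`). -/
def StmtRED : Prop := ∀ u v : ℝ × ℝ, dr u v ≠ 0 → ∃ a b c d : ℤ, a * d - b * c = 1 ∧
  nm (cb a b u v) ≤ nm (cb c d u v) ∧ nm (cb a b u v) * nm (cb c d u v) ≤ 2 * |dr u v|

/-- PACKET CG (counting `GL₂(ℤ)` in a box).  Rows `(a₁, b₁)`, `(a₂, b₂)`, `a₁ b₂ - b₁ a₂ = ±1`,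
`|aᵢ| ≤ X`, `|bᵢ| ≤ Y`, `Y ≤ X`.
Proof.  `m = max |b₁| |b₂| ≥ 1` as the determinant is not `0`.  Fix `(b₁, b₂)` and the sign; say `|b₁| = m`.
Then `a₁` determines `a₂`, and two solutions differ by a multiple of `(b₁, b₂)` (`b₁, b₂` are coprime), so the
values `a₁` are congruent mod `m`, all in `[-X, X]`: at most `2X/m + 1 ≤ 3X/m` of them (`m ≤ Y ≤ X`).
Similarly if `|b₂| = m`.  So at most `6X/m` solutions for each `(b₁, b₂)`; there are `8m` pairs with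
`max |b₁| |b₂| = m`; sum over `1 ≤ m ≤ Y`: at most `48 X ⌊Y⌋`. -/
def StmtCG : Prop := ∀ X Y : ℝ, 0 ≤ Y → Y ≤ X →
  ({w : Mat | |(w.1.1 : ℝ)| ≤ X ∧ |(w.2.1 : ℝ)| ≤ X ∧ |(w.1.2 : ℝ)| ≤ Y ∧ |(w.2.2 : ℝ)| ≤ Y ∧
    |dt w.1 w.2| = 1}).Finite ∧
  (({w : Mat | |(w.1.1 : ℝ)| ≤ X ∧ |(w.2.1 : ℝ)| ≤ X ∧ |(w.1.2 : ℝ)| ≤ Y ∧ |(w.2.2 : ℝ)| ≤ Y ∧
    |dt w.1 w.2| = 1}).ncard : ℝ) ≤ 48 * X * Y

/-- PACKET BAS (number of bases of a lattice in the unit square; from RED, CG).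
Proof.  Let `u' = cb a b u v`, `v' = cb c d u v` be the reduced basis (RED), `D = |dr u v| = |dr u' v'|`.
Writing the vectors in the basis `u', v'` instead of `u, v` is a bijection (right multiplication of the
coefficient matrix by an element of `SL₂(ℤ)`; the determinant `±1` is preserved), so it is enough to count
for `u', v'`.  If `g = a u' + b v'`, `nm g ≤ 1`, then `|a| D = |dr g v'| ≤ 2 nm v'` and
`|b| D = |dr u' g| ≤ 2 nm u'`.  Apply CG with `X = 2 nm v' / D`, `Y = 2 nm u' / D`: `Y ≤ X` and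
`48 X Y = 192 nm u' nm v' / D² ≤ 384 / D`. -/
def StmtBAS : Prop := ∀ u v : ℝ × ℝ, dr u v ≠ 0 →
  ({w : Mat | |dt w.1 w.2| = 1 ∧ nm (cb w.1.1 w.1.2 u v) ≤ 1 ∧ nm (cb w.2.1 w.2.2 u v) ≤ 1}).Finite ∧
  (({w : Mat | |dt w.1 w.2| = 1 ∧ nm (cb w.1.1 w.1.2 u v) ≤ 1 ∧
    nm (cb w.2.1 w.2.2 u v) ≤ 1}).ncard : ℝ) ≤ 384 / |dr u v|

/-- PACKET PRM (number of primitive vectors of a lattice in the unit square; from RED).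
Proof.  Reduced basis `u', v'` as in BAS (primitivity of the coefficient vector is preserved by `SL₂(ℤ)`).
The coefficients satisfy `|a| ≤ X = 2 nm v' / D`, `|b| ≤ Y = 2 nm u' / D`, `Y ≤ X`, `X Y ≤ 8 / D`.  If `Y < 1` then
`b = 0`, so `a = ±1`: at most `2` vectors.  Otherwise at most `(2X+1)(2Y+1) ≤ 9 X Y ≤ 72 / D`. -/
def StmtPRM : Prop := ∀ u v : ℝ × ℝ, dr u v ≠ 0 →
  ({w : ℤ × ℤ | IsCoprime w.1 w.2 ∧ nm (cb w.1 w.2 u v) ≤ 1}).Finite ∧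
  (({w : ℤ × ℤ | IsCoprime w.1 w.2 ∧ nm (cb w.1 w.2 u v) ≤ 1}).ncard : ℝ) ≤ 2 + 72 / |dr u v|

/-- PACKET LAT (matrices of given determinant with a given vector in the lattice of rows; from BAS).
Proof.  Let `z''` be an integer vector with `dt z z'' = 1`.  For `k ∣ n` and `0 ≤ r < k` let `h_r` be the matrix with rows
`k z` and `r z + (n/k) z''`.  Claim: every `g` in the set is `w h_r` with some integer matrix `w` of determinant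
`±1` (`g.1 = w.1.1 h₁ + w.1.2 h₂` etc.), and `k ∣ n`.  Choose integers `s₁, s₂` with `u₁ s₂ - u₂ s₁ = 1`; the matrix
`γ = (u; s)` has determinant `1` and `γ g` has rows `k z` and `v = s g = a z + b z''`, so
`±n = dt (k z) v = k b`.  If `b = - n/k` replace `v` by `-v`; then subtract a multiple of the first row to get
`0 ≤ a < k`.  So `g = γ' h_r` with `det γ' = ±1`.  For fixed `r`, the rows of `g` satisfy `|gᵢ₀| ≤ H`, `|gᵢ.w| ≤ M`;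
with `u = (h₁₀/H, h₁.w/M)`, `v = (h₂₀/H, h₂.w/M)`, `dr u v = dt h₁ h₂ / (H M) = n / (H M)`, BAS gives at most
`384 H M / n` matrices `w`.  Sum over the `k` values of `r`. -/
def StmtLAT : Prop := open Classical in ∀ (ξ M : ℝ) (H : ℕ), 1 ≤ H → 0 < M → ∀ (z : ℤ × ℤ), IsCoprime z.1 z.2 →
  ∀ k n : ℕ, 1 ≤ k → 1 ≤ n →
  (((box H).filter (fun g => |lf ξ g.1| ≤ M ∧ |lf ξ g.2| ≤ M ∧ |dt g.1 g.2| = (n : ℤ) ∧
      ∃ u : ℤ × ℤ, IsCoprime u.1 u.2 ∧ cmb u g = ((k : ℤ) * z.1, (k : ℤ) * z.2))).card : ℝ)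
    ≤ if k ∣ n then (k : ℝ) * (384 * H * M / n) else 0

/-- PACKET SUM.
Proof.  `∑_(n ≤ Y) ∑_(k ∣ n, k ≤ K) k/n = ∑_(k ≤ K) ∑_(m ≤ Y/k) 1/m ≤ K (1 + log Y)` (write `n = k m`; for `Y < 1`
the sum is empty), and `∑_(n ≤ Y) ∑_(k ∣ n) 1/k ≤ ∑_k (1/k) (Y/k) ≤ 2 Y` (`∑ 1/k² ≤ 2`). -/
def StmtSUM : Prop := ∀ Y K lam : ℝ, 0 ≤ Y → 1 ≤ K → 0 ≤ lam →
  ∑ n ∈ Icc 1 ⌊Y⌋₊, ∑ k ∈ n.divisors.filter (fun k : ℕ => (k : ℝ) ≤ K),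
      (2 * (k : ℝ) / n + 1152 * lam / k)
    ≤ 2 * K * (1 + Real.log (1 + Y)) + 2304 * lam * Y

/-- PACKET CNT (number of matrices in a class; from LAT, PRM, SUM).
Proof.  Let `g` be in the class, `n = |dt g₁ g₂| ≥ 1`; `n ≤ 2 H M` as `dt g₁ g₂ = g₁₀ (g₂.w) - g₂₀ (g₁.w)`.
`cmb u g ≠ 0` (`u ≠ 0` and `det g ≠ 0`), so `cmb u g = k z` with `z` primitive, `k ≥ 1` (the gcd), and
`k |z₀| ≤ 8 m n / M`, `k |z.w| ≤ 2 lam M / m`; hence `k ≤ K` by the hypothesis.  For given `n`, `k` the number of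
such primitive `z` is, by PRM with `u = (k/X, ξ k/Δ)`, `v = (0, k/Δ)`, `X = 8 m n / M`, `Δ = 2 lam M / m`
(`cb z.1 z.2 u v = (k z₀/X, k (z.w)/Δ)`, `dr u v = k²/(X Δ)`, `X Δ = 16 lam n`), at most `2 + 1152 lam n / k²`.
For given `n, k, z` use LAT.  So the number is at most
`384 H M ∑_(n ≤ 2HM) ∑_(k ∣ n, k ≤ K) k/n (2 + 1152 lam n/k²)`; apply SUM with `Y = 2HM`:
`≤ 384 HM (2 K (1 + log (1 + 2HM)) + 4608 lam HM)`. -/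
def StmtCNT : Prop := open Classical in ∀ (ξ M m lam K : ℝ) (H : ℕ), 1 ≤ H → 0 < M → 0 < m → 0 < lam → 1 ≤ K →
  (∀ (n k : ℕ) (z : ℤ × ℤ), 1 ≤ n → (n : ℝ) ≤ 2 * H * M → IsCoprime z.1 z.2 → 1 ≤ k →
    (k : ℝ) * |(z.1 : ℝ)| ≤ 8 * m * n / M → (k : ℝ) * |lf ξ z| ≤ 2 * lam * M / m → (k : ℝ) ≤ K) →
  (((box H).filter (Cls ξ M m lam)).card : ℝ)
    ≤ 2000000 * (lam * (H * M) ^ 2 + H * M * K * (1 + Real.log (1 + 2 * H * M)))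

/-! ## Part 2: elementary counts -/

/-- PACKET SQ (one denominator).
Proof.  Let `ρ ≤ 3/(4q)`.  For `g` in the set and its `p`: `|p|/q ≤ |x/y| + ρ ≤ t + 1`, so `|p| ≤ 2tq`; if `p ≠ 0` then
`|x/y| ≥ |p|/q - 3/(4q) ≥ |p|/(4q)`, so `|y| ≤ 4q|x|/|p| ≤ 12 H q/|p|`; always `|y| ≤ 3H`.  Let `Y_p = 3H` if
`|p| ≤ 4q` and `Y_p = 12 H q / |p|` otherwise.  For given `p` the number of `g` is at most
`#{g₂ : |g₂.w| ≤ Y_p} · max_(g₂) #{g₁ : |g₁.w - p y/q| ≤ ρ |y|} ≤ (2H+1)(2Y_p+1) · (2H+1)(2ρY_p+1)` (given the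
first coordinate, the second one is in an interval).  Sum over `p`: `∑ 4ρY_p² ≤ 4ρ (9H²(8q+1) + 144 H² q² · 2/(4q))
≤ 700 ρ q H²` (`∑_(p > 4q) 1/p² ≤ 1/(4q)`), and `∑ (2Y_p + 2ρY_p + 1) ≤ (4tq+1) · 13 H ≤ 65 t q H`.  Multiply by
`(2H+1)² ≤ 9H²`. -/
def StmtSQ : Prop := open Classical in ∀ (ξ t ρ : ℝ) (H q : ℕ), |ξ| ≤ 2 → 1 ≤ H → 1 ≤ t → 1 ≤ q → 0 ≤ ρ →
  ρ ≤ 3 / (4 * q) →
  (((box H).filter (fun g => lf ξ g.2 ≠ 0 ∧ |lf ξ g.1| ≤ t * |lf ξ g.2| ∧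
      ∃ p : ℤ, |lf ξ g.1 / lf ξ g.2 - (p : ℝ) / (q : ℝ)| ≤ ρ)).card : ℝ)
    ≤ 10000 * (ρ * q * (H : ℝ) ^ 4 + t * q * (H : ℝ) ^ 3)

/-- PACKET EB (large `η`).
Proof.  `t |y| < |x| ≤ 3H`: for given `g₁` and given first coordinate of `g₂` the second coordinate is in an open
interval of length `6H/t`: at most `6H/t + 1` values.  Total `(2H+1)³ (6H/t + 1) ≤ 4 (2H+1)^4 / t`. -/
def StmtEB : Prop := open Classical in ∀ (ξ t : ℝ) (H : ℕ), |ξ| ≤ 2 → 1 ≤ H → 1 ≤ t → t ≤ 2 * H + 1 →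
  (((box H).filter (fun g => t * |lf ξ g.2| < |lf ξ g.1|)).card : ℝ) ≤ 10 * (2 * (H : ℝ) + 1) ^ 4 / t

/-- PACKET DET (small determinants).
Proof.  `g₁ = 0`: `(2H+1)²` matrices.  For `g₁ ≠ 0` let `r = max |g₁₀| |g₁₁|`, `1 ≤ r ≤ H`; `8r` vectors for each `r`.
If `|g₁₀| = r`: for given `g₂₀` (`2H+1` values), `|g₁₀ g₂₁ - g₁₁ g₂₀| < D` restricts `g₂₁` to an open interval of
length `2D/r`: at most `2D/r + 1` values; the same if `|g₁₁| = r`.  Total at most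
`(2H+1)² + ∑_(r ≤ H) 8r (2H+1)(2D/r + 1) = (2H+1)² + 16 D H (2H+1) + 4 (2H+1) H (H+1)`, which is at most
`8 D (2H+1)² + 3 (2H+1)³`. -/
def StmtDET : Prop := open Classical in ∀ (D : ℝ) (H : ℕ), 0 ≤ D → 1 ≤ H →
  (((box H).filter (fun g => |(dt g.1 g.2 : ℝ)| < D)).card : ℝ)
    ≤ 8 * D * (2 * (H : ℝ) + 1) ^ 2 + 3 * (2 * (H : ℝ) + 1) ^ 3

/-- PACKET CLS (a matrix with a bad fraction of large denominator is in one of the classes).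
Proof.  `q ≥ Q₁ ≥ t² ≥ 4`.  Let `s = gcd p q`, `p = s p'`, `q = s q'`, `p', q'` coprime, `q' ≥ 1`; put
`lam' = c (q'/q)² / L(q)`, so that `|x/y - p'/q'| ≤ c/(q² L(q)) = lam'/q'²`.
(1) `c / L(q) ≤ (log Q₁)^ε / (log q)^(1+ε) ≤ 1 / log q ≤ 1`, so `lam' ≤ 1` and `lam'/q'² ≤ 1/q² ≤ t^(-4)`.
(2) `|p'|/q' ≤ |x/y| + 1 ≤ t + 1`, so `m' = max |p'| q' ≤ 2 t q' ≤ 2 q^(1/2) q ≤ q²`; hence with `2^i ≤ m' < 2^(i+1)`: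
`log (max (2^i) Q₁) ≤ 2 log q`, and `q'/q ≤ min 1 (q'/Q₁) ≤ min 1 (2^(i+1)/Q₁)`, so `lam' ≤ c sz ε Q₁ i`, and
`lam' ≤ lam = min 1 (c sz ε Q₁ i)`.  Also `2^i ≤ m' ≤ 2 t q' ≤ 2 t R`.
(3) Let `M' = max |x| |y| > 0` (`≤ 3H`).  `|q' x - p' y| ≤ lam' |y| / q' ≤ 2 lam' M' / m'`: clear if `m' = q'`; if
`m' = |p'| > q'` then `|x/y| ≥ |p'|/q' - lam'/q'² ≥ |p'|/(2q')` so `|y| ≤ 2 q' |x| / |p'|`.
(4) Choose `j` with `M_j / 2 < M' ≤ M_j = 3H/2^j`.  `n = |dt g₁ g₂| ≥ 1` (it is `≥ 6H²/t⁴ > 0`), `n ≤ 2 H M'` so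
`2^j ≤ 3H/M' ≤ 6H²`.
(5) Take `u = (q', -p')`, `z = cmb u g`, `z.w = q' x - p' y`, `|z.w| ≤ 2 lam' M'/m' ≤ 2 lam M_j / 2^i`.
For the row `gᵢ` with `|gᵢ.w| = M'`: `dt z gᵢ = z₀ (gᵢ.w) - gᵢ₀ (z.w)` and `|dt z gᵢ| ≤ m' n` (`dt z g₂ = q' dt g₁ g₂`,
`dt z g₁ = p' dt g₁ g₂`), so `|z₀| M' ≤ m' n + H · 2 lam' M'/m'`; as `2 lam' H M' ≤ 6 lam' H² ≤ m'² n` (by (1):
`lam'/m'² ≤ t^(-4)`, `n ≥ 6H²/t⁴`), `|z₀| ≤ 2 m' n / M' ≤ 2 · 2^(i+1) n · 2 / M_j`. -/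
def StmtCLS : Prop := ∀ (ε ξ t c Q₁ R : ℝ) (H : ℕ) (g : Mat) (p : ℤ) (q : ℕ), 0 < ε → Irrational ξ →
  |ξ| ≤ 2 → 1 ≤ H → 2 ≤ t → t ^ 2 ≤ Q₁ → 0 < c → c ≤ Real.log Q₁ ^ ε → g ∈ box H →
  |lf ξ g.1| ≤ t * |lf ξ g.2| → 6 * (H : ℝ) ^ 2 / t ^ 4 ≤ |(dt g.1 g.2 : ℝ)| →
  Q₁ ≤ (q : ℝ) → (q : ℝ) ≤ R →
  |lf ξ g.1 / lf ξ g.2 - (p : ℝ) / (q : ℝ)| ≤ c / ((q : ℝ) ^ 2 * Real.log (q : ℝ) ^ (1 + ε)) →
  ∃ i j : ℕ, (2 : ℝ) ^ i ≤ 2 * t * R ∧ (2 : ℝ) ^ j ≤ 6 * (H : ℝ) ^ 2 ∧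
    Cls ξ (3 * H / 2 ^ j) (2 ^ i) (min 1 (c * sz ε Q₁ i)) g

/-- PACKET KB (the content is bounded by the irrationality measure; `t = H^(1/20)`).
Proof.  `X = 8 m n / M ≤ 16 m H ≤ 32 t R H`, `Δ = 2 lam M / m`, `X Δ = 16 lam n ≤ 32 H M ≤ 96 H²`.  If `z₀ = 0` then
`z = (0, ±1)`, `|z.w| = 1` and `k ≤ Δ ≤ 6H`.  If `z₀ ≠ 0` then `1 ≤ |z₀| ≤ X/k`, `|z.w| ≤ Δ/k`, so
`c₀ ≤ (Δ/k) (X/k)^(1+δ)`, i.e. `k² ≤ k^(2+δ) ≤ Δ X X^δ / c₀`.  Here `X^δ ≤ (32 t H)^δ R^δ ≤ t · t` (`(32 t H)^(1/100) ≤ t`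
since `32 t H = 32 t^21 ≤ t^100`), `1/c₀ ≤ t`: `k² ≤ 96 H² t³ ≤ (10 H t²)²`. -/
def StmtKB : Prop := ∀ (ξ δ c₀ t R m M lam : ℝ) (H : ℕ), |ξ| ≤ 2 → 0 ≤ δ → δ ≤ 1 / 100 → 0 < c₀ →
  (∀ a b : ℤ, a ≠ 0 → c₀ ≤ |(a : ℝ) * ξ + b| * |(a : ℝ)| ^ (1 + δ)) →
  2 ≤ t → t ^ 20 = (H : ℝ) → 1 ≤ R → R ^ δ ≤ t → 1 ≤ c₀ * t → 1 ≤ m → m ≤ 2 * t * R → 0 < M → M ≤ 3 * H →
  0 < lam → lam ≤ 1 →
  ∀ (n k : ℕ) (z : ℤ × ℤ), 1 ≤ n → (n : ℝ) ≤ 2 * H * M → IsCoprime z.1 z.2 → 1 ≤ k →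
    (k : ℝ) * |(z.1 : ℝ)| ≤ 8 * m * n / M → (k : ℝ) * |lf ξ z| ≤ 2 * lam * M / m →
    (k : ℝ) ≤ 10 * H * t ^ 2

/-- PACKET SI.
Proof.  Indices with `2^i < Q₁`: `sz ≤ (4 · 4^i / Q₁²) (2/log Q₁)^(1+ε)` and the geometric sum of `4^i` over `2^i < Q₁` is at
most `4/3 Q₁²`; `log Q₁ ≥ 1`.  Indices with `2^i ≥ Q₁`: `sz ≤ (2/(i log 2))^(1+ε)`, and
`∑_(i ≥ i₀) i^(-1-ε) ≤ i₀^(-1-ε) + i₀^(-ε)/ε` with `i₀ ≥ log Q₁ / log 2 ≥ 1`. -/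
def StmtSI : Prop := ∀ ε : ℝ, 0 < ε → ∃ C : ℝ, 0 < C ∧ ∀ Q₁ : ℝ, 4 ≤ Q₁ → ∀ I : ℕ,
  ∑ i ∈ range I, sz ε Q₁ i ≤ C / Real.log Q₁ ^ ε

/-- PACKET SQS.
Proof.  By the mean value theorem `(log (q-1))^(-ε) - (log q)^(-ε) ≥ ε / (q (log q)^(1+ε))` for `q ≥ 3`, so the sum over
`q ≥ ⌈Q⌉ + 1` telescopes to at most `(1/ε) (log Q)^(-ε)`; the first term is at most `(log Q)^(-ε) / (2 log 2)`. -/
def StmtSQS : Prop := ∀ ε : ℝ, 0 < ε → ∃ C : ℝ, 0 < C ∧ ∀ Q : ℝ, 2 ≤ Q → ∀ N : ℕ,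
  ∑ q ∈ (range N).filter (fun q : ℕ => Q ≤ (q : ℝ)), 1 / ((q : ℝ) * Real.log q ^ (1 + ε))
    ≤ C / Real.log Q ^ ε

/-- G: the transfer theorem (assembly, helper73). -/
def StmtG : Prop := open Classical in ∀ ε : ℝ, 0 < ε → ∃ C H₀ : ℝ, 0 < C ∧ ∀ ξ : ℝ, Irrational ξ → |ξ| ≤ 2 →
  ∀ δ c₀ : ℝ, 0 ≤ δ → δ ≤ 1 / 100 → 0 < c₀ →
  (∀ a b : ℤ, a ≠ 0 → c₀ ≤ |(a : ℝ) * ξ + b| * |(a : ℝ)| ^ (1 + δ)) →
  ∀ (H : ℕ) (R : ℝ), H₀ ≤ H → 1 ≤ R → R ^ δ ≤ (H : ℝ) ^ (1 / 20 : ℝ) → 1 ≤ c₀ * (H : ℝ) ^ (1 / 20 : ℝ) →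
  Real.log R ≤ (H : ℝ) ^ (1 / 20 : ℝ) → ∀ c Q : ℝ, 0 < c → 2 ≤ Q →
  (((box H).filter (bad ε c Q R ξ)).card : ℝ)
    ≤ C * (c / Real.log Q ^ ε + (H : ℝ) ^ (-(1 / 20) : ℝ)) * (2 * (H : ℝ) + 1) ^ 4

/-! ## Part 3: Padé approximants -/

/-- PACKET INT (integrality of `k^(2j) (a/k choose j)`).
Proof.  For a prime `l` and `v` with `l^v ∣ j!`: if `l ∣ k` then `v ≤ j` (`l^j ∤ j!` for `j ≥ 1`; `Nat.Prime.multiplicity_factorial`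
or Legendre's formula `sub_one_mul_padicValNat_factorial`), so `l^v ∣ k^j`.  If `l ∤ k` choose an integer `b` with
`b k ≡ a` mod `l^v`; then `∏ (a - i k) ≡ k^j ∏ (b - i)` mod `l^v` and `j! ∣ ∏_(i<j) (b - i)` (`descPochhammer`,
`Ring.choose`), so `l^v` divides the product.  Conclude with `Nat.dvd_iff_prime_pow_dvd_dvd`. -/
def StmtINT : Prop := ∀ (a k : ℤ) (j : ℕ), (j.factorial : ℤ) ∣ k ^ j * ∏ i ∈ range j, (a - i * k)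

/-- PACKET RCI (from INT).  `Ring.choose` of a rational number with denominator `k`.
Proof.  `Ring.choose ν j = (∏_(i<j) (ν - i)) / j!` (`Ring.descPochhammer_eq_factorial_smul_choose`), and with
`ν = a/k`: `k^(2j) ∏ (a/k - i) = k^j ∏ (a - i k)`. -/
def StmtRCI : Prop := ∀ (a : ℤ) (k : ℕ) (j : ℕ), 1 ≤ k →
  ∃ m : ℤ, (k : ℝ) ^ (2 * j) * Ring.choose ((a : ℝ) / k) j = m

/-- PACKET SAA (Saalschütz type identity = the Padé property).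
Proof.  `(2n-j choose n) = ∑_(l ≤ n) (-1)^l (j choose l) (2n-l choose n)` for `j ≤ n`, and the right side is `0` for
`n < j ≤ 2n` (finite differences of `x ↦ (x choose n)`; or by `Ring.choose` and Vandermonde).  So the sum is
`∑_(l ≤ n) (-1)^l (2n-l choose n) ∑_(j ≤ m) (n-ν choose j) (j choose l) (ν choose m-j)
 = ∑_(l ≤ n) (-1)^l (2n-l choose n) (n-ν choose l) (n-l choose m-l)` by
`(x choose j)(j choose l) = (x choose l)(x-l choose j-l)` and Vandermonde (`Ring.add_choose_eq`).  For `m > n` every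
term is `0`.  For `m ≤ n`: `(2n-l choose n)(n-l choose m-l) = (2n-m choose n)(2n-l choose m-l)` and
`(2n-l choose m-l) = (-1)^(m-l) (m-2n-1 choose m-l)`, so by Vandermonde the sum is
`(2n-m choose n) (-1)^m (m-n-1-ν choose m) = (2n-m choose n) (n+ν choose m)` (`Ring.choose_neg`). -/
def StmtSAA : Prop := ∀ (ν : ℝ) (n m : ℕ), m ≤ 2 * n →
  ∑ j ∈ range (n + 1), (if j ≤ m then
      Ring.choose ((n : ℝ) - ν) j * ((2 * n - j).choose n : ℝ) * Ring.choose ν (m - j) else 0)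
    = if m ≤ n then Ring.choose ((n : ℝ) + ν) m * ((2 * n - m).choose n : ℝ) else 0

/-- PACKET BIN (elementary facts on `Ring.choose`).
Proof.  (1) `Real.one_add_rpow_hasFPowerSeriesOnBall_zero`.  (2) `(ν choose i) = ∏_(l<i) (ν - l)/(l+1)` and
`|ν - l| ≤ l + 1` for `0 ≤ ν ≤ 1`.  (3) `(n-ν choose j) = ∏_(l<j) (n - ν - l)/(l+1)`, `0 < n - ν - l ≤ n - l` for `l < j ≤ n`
(`n - l ≥ 1`).  (4) `(n+1+s choose n+1) = (n+s choose n) (n+1+s)/(n+1)` with `s = ν`, `s = -ν`. -/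
structure StmtBIN : Prop where
  hs : ∀ ν x : ℝ, |x| < 1 → HasSum (fun m : ℕ => Ring.choose ν m * x ^ m) ((1 + x) ^ ν)
  le1 : ∀ (ν : ℝ) (i : ℕ), 0 ≤ ν → ν ≤ 1 → |Ring.choose ν i| ≤ 1
  pos : ∀ (ν : ℝ) (n j : ℕ), 0 ≤ ν → ν < 1 → j ≤ n → 0 < Ring.choose ((n : ℝ) - ν) j
  le : ∀ (ν : ℝ) (n j : ℕ), 0 ≤ ν → ν < 1 → j ≤ n → Ring.choose ((n : ℝ) - ν) j ≤ (n.choose j : ℝ)
  recu : ∀ (s : ℝ) (n : ℕ), Ring.choose ((n : ℝ) + 1 + s) (n + 1) * (n + 1)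
    = Ring.choose ((n : ℝ) + s) n * ((n : ℝ) + 1 + s)
  npos : ∀ (s : ℝ) (n : ℕ), -1 < s → s < 1 → 0 < Ring.choose ((n : ℝ) + s) n

/-- PACKET REM (remainder; from SAA, BIN).
Proof.  `PB ≤ ∑_j (n choose j)(2n choose n) x^j ≤ 2^n 4^n`, all terms positive and the term `j = 0` is
`(2n choose n) ≥ 1`.  Expanding `(1+x)^ν PB ν n x` (BIN hs) the coefficient of `x^m` is
`r_m = ∑_(j ≤ min n m) (n-ν choose j)(2n-j choose n)(ν choose m-j)`, `|r_m| ≤ 8^n` (BIN le1, le), and for `m ≤ 2n` it is the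
coefficient of `PA ν n x` (SAA).  So `PA - (1+x)^ν PB = -∑_(m > 2n) r_m x^m`, at most `8^n · 2 x^(2n+1)` as `x ≤ 1/2`. -/
def StmtREM : Prop := ∀ (ν x : ℝ) (n : ℕ), 0 ≤ ν → ν < 1 → 0 < x → x ≤ 1 / 2 →
  1 ≤ PB ν n x ∧ PB ν n x ≤ 8 ^ n ∧ |PA ν n x - (1 + x) ^ ν * PB ν n x| ≤ 8 ^ n * (2 * x ^ (2 * n + 1))

/-- PACKET NV (consecutive approximants are different; from SAA, BIN).
Proof.  Work with polynomials / power series over `ℝ`: `A_n, B_n` the polynomials of `PA, PB`, `f = ∑ (ν choose m) X^m`.  By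
SAA the coefficients of `A_n - f B_n` vanish up to index `2n`, so those of
`E = A_n B_(n+1) - A_(n+1) B_n = (A_n - f B_n) B_(n+1) - (A_(n+1) - f B_(n+1)) B_n` vanish up to `2n`.  `E` is a polynomial
of degree `≤ 2n+1`, so `E = κ X^(2n+1)`, `κ` = the product of top coefficients:
`κ = (n+ν choose n)(n+1-ν choose n+1) - (n+1+ν choose n+1)(n-ν choose n) = -2ν (n+ν choose n)(n-ν choose n)/(n+1) ≠ 0`
(BIN recu, npos). -/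
def StmtNV : Prop := ∀ (ν x : ℝ) (n : ℕ), 0 < ν → ν < 1 → x ≠ 0 →
  PA ν n x * PB ν (n + 1) x - PA ν (n + 1) x * PB ν n x ≠ 0

/-- PACKET EXL (from a sequence of approximations to an irrationality measure).
Proof.  `q = |a| ≥ 1`.  Let `s` be minimal with `4 q / N < (N/K)^s`, i.e. `2 q (2/N)(K/N)^s < 1` (exists as `N > K`); the same
inequality holds for `s + 1`.  One of `i ∈ {s, s+1}` has `p_i a + q_i b ≠ 0` (otherwise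
`a (p_s q_(s+1) - p_(s+1) q_s) = 0`).  Then `1 ≤ |p_i a + q_i b| ≤ |a| |p_i - ξ q_i| + q_i |a ξ + b| ≤ 1/2 + q_i |a ξ + b|`,
so `|a ξ + b| ≥ 1/(2 (K N)^(s+1))`.  If `s ≥ 1`, minimality gives `(N/K)^(s-1) ≤ 4q/N ≤ q`, and with
`θ = log (K N) / log (N/K)`: `(K N)^(s+1) = (K N)² ((N/K)^(s-1))^θ ≤ (K N)² q^θ` (for `s = 0` trivially true).  Finally
`θ ≤ 1 + 4 log K / log N` as `log N ≥ 2 log K`. -/
def StmtEXL : Prop := ∀ (ξ K : ℝ) (N : ℕ) (p q : ℕ → ℤ), 2 ≤ K → K ^ 2 ≤ N →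
  (∀ n, 0 < q n ∧ (q n : ℝ) ≤ (K * N) ^ n ∧ |(p n : ℝ) - ξ * q n| ≤ 2 / N * (K / N) ^ n ∧
    p n * q (n + 1) - p (n + 1) * q n ≠ 0) →
  ∀ a b : ℤ, a ≠ 0 →
    1 / (2 * (K * N) ^ 2) ≤ |(a : ℝ) * ξ + b| * |(a : ℝ)| ^ (1 + 4 * Real.log K / Real.log N)

/-- PACKET IRR.
Proof.  `ζ = N ξ` satisfies `ζ^k = N^(k-1) (N+1)`.  If `ξ` is rational then `ζ` is a positive integer `m`
(`irrational_nrt_of_notint_nrt`), and `N^k < N^(k-1)(N+1) = m^k < (N+1)^k` gives `N < m < N+1`, a contradiction. -/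
def StmtIRR : Prop := ∀ k N : ℕ, 2 ≤ k → 1 ≤ N → Irrational ((1 + 1 / (N : ℝ)) ^ (1 / (k : ℝ)))

/-- PACKET PD (from RCI, REM, NV, EXL, BIN, IRR).
Proof.  `ν = 1/k`, `x = 1/N`, `q_n = (k² N)^n PB ν n x`, `p_n = (k² N)^n PA ν n x` are integers: the `j`-th term is
`k^(2(n-j)) N^(n-j) · k^(2j) (n ± 1/k choose j) · (2n-j choose n)` (RCI with `a = nk ± 1`).  `0 < q_n ≤ (8 k² N)^n`,
`|p_n - ξ q_n| ≤ (k² N)^n 8^n 2 N^(-2n-1) = (2/N) (8k²/N)^n`, and `p_n q_(n+1) - p_(n+1) q_n ≠ 0` (NV).  Apply EXL with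
`K = 8k²`, `N ≥ 4 K²`, so `1/(2 K² N²) ≥ N^(-3)`; `B = max 3 (4 log K)`. -/
def StmtPD : Prop := ∀ k : ℕ, 2 ≤ k → ∃ B : ℝ, ∃ N₀ : ℕ, 1 ≤ B ∧ 3 ≤ N₀ ∧ ∀ N : ℕ, N₀ ≤ N →
  Irrational ((1 + 1 / (N : ℝ)) ^ (1 / (k : ℝ))) ∧ |(1 + 1 / (N : ℝ)) ^ (1 / (k : ℝ))| ≤ 2 ∧
  ∀ a b : ℤ, a ≠ 0 → (N : ℝ) ^ (-B) ≤
    |(a : ℝ) * (1 + 1 / (N : ℝ)) ^ (1 / (k : ℝ)) + b| * |(a : ℝ)| ^ (1 + B / Real.log N)

/-! ## Part 4: the two consequences -/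

/-- PACKET A1 (part (a) for `|ξ| ≤ 2`, from G; Roth's theorem is `Helper95.Div.roth_low`).
Proof.  `δ = min (1/100) (1/(20 (|A|+1)))`, `c₀` from Roth (`roth_low` with `n = |a|`, `k = ∓b`), `R = max 1 (H^A)`;
`R^δ ≤ H^(1/20)`, `c₀ H^(1/20) ≥ 1` and `log R ≤ |A| log H ≤ H^(1/20)` for `H` large. -/
def StmtA1 : Prop := open Classical in ∀ ε : ℝ, 0 < ε → ∃ C : ℝ, 0 < C ∧ ∀ ξ : ℝ, IsAlgebraic ℚ ξ → Irrational ξ → |ξ| ≤ 2 →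
  ∀ A : ℝ, ∃ H₀ : ℕ, ∀ H : ℕ, H₀ ≤ H → ∀ c Q : ℝ, 0 < c → 2 ≤ Q →
  (((box H).filter (bad ε c Q ((H : ℝ) ^ A) ξ)).card : ℝ)
    ≤ C * (c / Real.log Q ^ ε + (H : ℝ) ^ (-(1 / 20) : ℝ)) * (2 * (H : ℝ) + 1) ^ 4

/-- PACKET A2 (part (a), from A1).
Proof.  If `|ξ| > 2` use `ξ' = 1/ξ` (algebraic, irrational, `|ξ'| ≤ 2`) and the bijection of `box H` which
exchanges the two columns: `lf ξ (a, b) = ξ lf ξ' (b, a)`, so the quotients `lf ξ g.1 / lf ξ g.2` are the same. -/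
def StmtA2 : Prop := open Classical in ∀ ε : ℝ, 0 < ε → ∃ C : ℝ, 0 < C ∧ ∀ ξ : ℝ, IsAlgebraic ℚ ξ → Irrational ξ →
  ∀ A : ℝ, ∃ H₀ : ℕ, ∀ H : ℕ, H₀ ≤ H → ∀ c Q : ℝ, 0 < c → 2 ≤ Q →
  (((box H).filter (bad ε c Q ((H : ℝ) ^ A) ξ)).card : ℝ)
    ≤ C * (c / Real.log Q ^ ε + (H : ℝ) ^ (-(1 / 20) : ℝ)) * (2 * (H : ℝ) + 1) ^ 4

/-- PACKET B (part (b), from G and PD).
Proof.  `δ = B / log N ≤ 1/100` for `N ≥ N₁`, `c₀ = N^(-B)`, `R = exp (c₁ log H log N)` with `c₁ = 1/(20 B) ≤ 1`: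
`R^δ = exp (c₁ B log H) = H^(1/20)`; `c₀ H^(1/20) ≥ 1` as `H ≥ N^(20 B)`; `log R ≤ (log H)² ≤ H^(1/20)` for `H` large
(`H ≥ N ≥ N₀`).  The constant `C` is the one of G, and `H₀(G) ≤ N₀ ≤ H`. -/
def StmtB : Prop := open Classical in ∀ ε : ℝ, 0 < ε → ∃ C : ℝ, 0 < C ∧ ∀ k : ℕ, 2 ≤ k →
  ∃ (C₀ c₁ : ℝ) (N₀ : ℕ), 0 < c₁ ∧ ∀ N H : ℕ, N₀ ≤ N → (N : ℝ) ^ C₀ ≤ H → ∀ c Q : ℝ, 0 < c → 2 ≤ Q →
  (((box H).filter (bad ε c Q (Real.exp (c₁ * Real.log H * Real.log N))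
      ((1 + 1 / (N : ℝ)) ^ (1 / (k : ℝ))))).card : ℝ)
    ≤ C * (c / Real.log Q ^ ε + (H : ℝ) ^ (-(1 / 20) : ℝ)) * (2 * (H : ℝ) + 1) ^ 4

end Pool.Agent.Helper73.SM
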