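import Mathlib
import Pool.Agent.Helper73.SM.Defs

/-!
# Project CU (MP_c307ca_nt): the cubic numbers `(1 + 1/N)^(1/3)`.  Definitions.
-/

set_option autoImplicit false

namespace Pool.Agent.Helper73.SM

open Finset

/-- `9^j (n + s/3 choose j)`, an integer -/
def cz (s : ℤ) (n j : ℕ) : ℤ := (3 ^ j * ∏ i ∈ range j, (3 * (n : ℤ) + s - 3 * (i : ℤ))) / (j.factorial : ℤ)

/-- the integer Padé polynomials at `N`: numerator `s = 1`, denominator `s = -1` -/
def PZ (s : ℤ) (n : ℕ) (N : ℤ) : ℤ :=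
  ∑ j ∈ range (n + 1), cz s n j * ((2 * n - j).choose n : ℤ) * (9 * N) ^ (n - j)

/-- the greatest common divisor of numerator and denominator -/
def GG (n : ℕ) (N : ℤ) : ℕ := Int.gcd (PZ 1 n N) (PZ (-1) n N)

/-- the determinant of two consecutive approximants -/
def DD (n : ℕ) : ℤ := (6 * cz 1 n n * cz (-1) n n) / ((n : ℤ) + 1)

/-- `(1 + 1/N)^(1/3)` -/
noncomputable def xi (N : ℕ) : ℝ := (1 + 1 / (N : ℝ)) ^ (1 / (3 : ℝ))

/-- the primes `p` with `(3n+1)/2 < p ≤ 3n+1` -/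
def PP (n : ℕ) : Finset ℕ := (Ioc ((3 * n + 1) / 2) (3 * n + 1)).filter Nat.Prime

/-- the primes `p` with `n + 1 < p ≤ (3n+1)/2` -/
def PC (n : ℕ) : Finset ℕ := (Ioc (n + 1) ((3 * n + 1) / 2)).filter Nat.Prime

end Pool.Agent.Helper73.SM
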