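import Mathlib
import Pool.Agent.Helper73.SM.Goals
import Pool.Agent.Helper73.SM.DefsU

/-!
# Project CU (MP_c307ca_nt): packets

Final theorem.  For every `δ > 0` there are `c > 0` and `X₀` such that for all `X ≥ X₀`, all but `δ X` of the
integers `N` in `(X, 2X]` satisfy `|(1 + 1/N)^(1/3) - p/q| ≥ c / (N q²)` for all integers `p` and all
`1 ≤ q ≤ exp ((log N)² / 10)`.

Notation: `p_n = PZ 1 n N`, `q_n = PZ (-1) n N`, `G_n = GG n N`, `D_n = DD n`, `ξ = xi N`.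
-/

set_option autoImplicit false

namespace Pool.Agent.Helper73.SM

open Finset

/-- PACKET UCZ (from INT).
Proof.  `cz s n j * j! = 3^j ∏ (3n + s - 3i)` is INT with `a = 3n + s`, `k = 3`.  `Ring.choose ν j = ∏ (ν - i) / j!`
(`Ring.descPochhammer_eq_factorial_smul_choose`; see also packet RCI), so `cz s n j = 9^j Ring.choose (n + s/3) j`.
Third: the `j`-th term of `(9N)^n PA (1/3) n (1/N)` is `Ring.choose (n + 1/3) j (2n-j choose n) 9^n N^(n-j)`. -/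
structure StmtUCZ : Prop where
  mul : ∀ (s : ℤ) (n j : ℕ), cz s n j * (j.factorial : ℤ)
    = 3 ^ j * ∏ i ∈ range j, (3 * (n : ℤ) + s - 3 * (i : ℤ))
  cast : ∀ (s : ℤ) (n j : ℕ), (cz s n j : ℝ) = 9 ^ j * Ring.choose ((n : ℝ) + (s : ℝ) / 3) j
  pa : ∀ n N : ℕ, 1 ≤ N → (PZ 1 n (N : ℤ) : ℝ) = (9 * (N : ℝ)) ^ n * PA (1 / 3) n (1 / (N : ℝ))
  pb : ∀ n N : ℕ, 1 ≤ N → (PZ (-1) n (N : ℤ) : ℝ) = (9 * (N : ℝ)) ^ n * PB (1 / 3) n (1 / (N : ℝ))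

/-- PACKET UDT (from SAA, BIN, UCZ).
Proof.  As in packet NV (proved in Helper60's file for NV: adapt it): `E = A_n B_(n+1) - A_(n+1) B_n` is `κ X^(2n+1)` with
`κ = -2ν (n+ν choose n)(n-ν choose n)/(n+1)`, `ν = 1/3`.  With UCZ pa, pb: `p_(n+1) q_n - p_n q_(n+1) = - (9N)^(2n+1) κ N^(-2n-1)
= 9^(2n+1) (2/3) (n+1/3 choose n)(n-1/3 choose n)/(n+1) = 6 cz 1 n n cz (-1) n n / (n+1)` (UCZ cast).  So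
`(n+1) (p_(n+1) q_n - p_n q_(n+1)) = 6 cz 1 n n cz (-1) n n`, hence the value is `D_n` and `D_n (n+1) = 6 cz cz`.
Bounds: `0 < (n-1/3 choose n) ≤ 1` and `0 < (n+1/3 choose n) ≤ (n+1 choose n) = n + 1` (BIN npos, le; or the products),
so `0 < D_n ≤ 6 · 81^n`, and `D_n ≥ 1` as it is an integer. -/
structure StmtUDT : Prop where
  det : ∀ n N : ℕ, 1 ≤ N → PZ 1 (n + 1) N * PZ (-1) n N - PZ 1 n N * PZ (-1) (n + 1) N = DD n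
  mul : ∀ n : ℕ, DD n * ((n : ℤ) + 1) = 6 * cz 1 n n * cz (-1) n n
  pos : ∀ n : ℕ, 1 ≤ DD n
  le : ∀ n : ℕ, (DD n : ℝ) ≤ 6 * 81 ^ n

/-- PACKET USZ (sizes; from UCZ, REM, BIN).
Proof.  `ν = 1/3`, `x = 1/N ≤ 1/2`.  REM: `1 ≤ PB ≤ 8^n`, `|PA - ξ PB| ≤ 8^n 2 x^(2n+1)`; multiply by `(9N)^n`.  Last part:
`PB n x ≥ (2n choose n)` (term `j = 0`, all terms positive) and `PB (n+1) x ≤ ∑ (n+1 choose j)(2n+2-j choose n+1) x^j ≤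
(2n+2 choose n+1)(1+x)^(n+1) ≤ 4 (2n choose n) · 2` when `(1+1/N)^(n+1) ≤ 2`, so
`q_(n+1) ≤ (9N)^(n+1) 8 (2n choose n) ≤ 72 N q_n`. -/
structure StmtUSZ : Prop where
  pos : ∀ n N : ℕ, 2 ≤ N → 1 ≤ PZ (-1) n (N : ℤ)
  le : ∀ n N : ℕ, 2 ≤ N → (PZ (-1) n (N : ℤ) : ℝ) ≤ (72 * (N : ℝ)) ^ n
  rem : ∀ n N : ℕ, 2 ≤ N →
    |(PZ 1 n (N : ℤ) : ℝ) - xi N * (PZ (-1) n (N : ℤ) : ℝ)| ≤ 2 / (N : ℝ) * (72 / (N : ℝ)) ^ n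
  step : ∀ n N : ℕ, 2 ≤ N → (1 + 1 / (N : ℝ)) ^ (n + 1) ≤ 2 →
    (PZ (-1) (n + 1) (N : ℤ) : ℝ) ≤ 72 * N * (PZ (-1) n (N : ℤ) : ℝ)

/-- PACKET UPR (every good fraction is a Padé approximant; from USZ).
Proof.  Let `n` be minimal with `R < (N/4)(N/72)^n`.  If `n ≥ 1` then `R ≥ (N/4)(N/72)^(n-1)`, so with `Λ = log N`:
`(n-1)(Λ - log 72) ≤ Λ²/10 + log 4 - Λ`, which gives `n ≤ Λ/10 + 1/2 ≤ Λ/(2 log 72)`, i.e. `72^(2n) ≤ N`, for `N ≥ e^80` say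
(`log 72 < 4.28`); `n = 0` is fine too.  Then `q_n |P - ξ R| ≤ (72N)^n c/(N R)`, which is for `n ≥ 1` at most
`(72N)^n (4c/N²)(72/N)^(n-1) = 4c 72^(2n-1)/N ≤ 4c/72 < 1/2`, and `c/N < 1/2` for `n = 0`; and
`R |p_n - ξ q_n| ≤ R (2/N)(72/N)^n < 1/2`.  So `|P q_n - R p_n| = |q_n (P - ξ R) - R (p_n - ξ q_n)| < 1` is `0`. -/
def StmtUPR : Prop := ∃ N₁ : ℕ, 2 ≤ N₁ ∧ ∀ N : ℕ, N₁ ≤ N → ∀ (c : ℝ) (P : ℤ) (R : ℕ), 0 < c → c ≤ 1 / 16 → 1 ≤ R →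
  (R : ℝ) ≤ Real.exp (Real.log N ^ 2 / 10) → (R : ℝ) * |(P : ℝ) - xi N * R| < c / N →
  ∃ n : ℕ, (72 : ℝ) ^ (2 * n) ≤ N ∧ P * PZ (-1) n (N : ℤ) = R * PZ 1 n (N : ℤ)

/-- PACKET UVL (the value of a reduced Padé approximant; from USZ, UDT).
Proof.  `P q_n = R p_n`, `P, R` coprime, `R, q_n ≥ 1` give `q_n = R G_n`, `p_n = P G_n`.  `D_n = p_(n+1) q_n - p_n q_(n+1) =
q_n (p_(n+1) - ξ q_(n+1)) - q_(n+1) (p_n - ξ q_n)` and `q_n |p_(n+1) - ξ q_(n+1)| ≤ (72N)^n (2/N)(72/N)^(n+1) =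
2 · 72^(2n+1)/N² ≤ 144/N ≤ 1/2 ≤ D_n/2`.  So `q_(n+1) |p_n - ξ q_n| ≥ D_n/2`, and `q_(n+1) ≤ 72 N q_n` (USZ step:
`(1+1/N)^(n+1) ≤ 2` because `n + 1 ≤ 72^(2n) / 2 ...`: for `N ≥ 1000` and `72^(2n) ≤ N` one has `(n+1)/N ≤ 1/2`, and
`(1+1/N)^(n+1) ≤ exp ((n+1)/N) ≤ 2`).  Hence `q_n |p_n - ξ q_n| ≥ D_n/(144 N)`; divide by `G_n²`. -/
def StmtUVL : Prop := ∀ (N n : ℕ) (P : ℤ) (R : ℕ), 1000 ≤ N → (72 : ℝ) ^ (2 * n) ≤ N → 1 ≤ R → IsCoprime P (R : ℤ) →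
  P * PZ (-1) n (N : ℤ) = R * PZ 1 n (N : ℤ) →
  (DD n : ℝ) / (144 * N * (GG n (N : ℤ) : ℝ) ^ 2) ≤ (R : ℝ) * |(P : ℝ) - xi N * R|

/-- PACKET UC3 (the power of `3`; from UCZ).
Proof.  `v_3(j!) ≤ (j-1)/2` for `j ≥ 1` (Legendre; `sub_one_mul_padicValNat_factorial`), and `3n + s - 3i` is prime to `3`
for `s = ±1`, so by UCZ mul `v_3 (cz s m j) = j - v_3(j!) ≥ (j+1)/2` for `j ≥ 1`; the `j`-th term of `PZ s m N` is divisible by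
`3^(2(m-j)) cz s m j`, and `(j+1)/2 + 2(m-j) ≥ (m+1)/2` for `1 ≤ j ≤ m`; for `j = 0`: `2m ≥ (m+1)/2`. -/
def StmtUC3 : Prop := ∀ (s : ℤ) (m : ℕ) (N : ℤ), s = 1 ∨ s = -1 → 1 ≤ m → (3 : ℤ) ^ ((m + 1) / 2) ∣ PZ s m N

/-- PACKET UCP (the primes in `(m, (3m-1)/2]` divide the approximants; from UCZ).
Proof.  `p ≥ 5`: `m < p`, `2p ≤ 3m - 1`.  Term `j`.  If `j ≤ 2m - p` then `p ∣ (2m-j choose m)` (`2m - j ≥ p > m ≥ m - j`,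
`Nat.Prime.dvd_choose`...).  If `j ≥ 2m - p + 1`: `cz s m j * j! = 3^j ∏_(l = m-j+1)^m (3l + s)` (UCZ mul, `l = m - i`), `p ∤ j!`,
and some `l` with `p - m ≤ l ≤ m` (note `m - j + 1 ≤ p - m`) has `p ∣ 3l + s`: for `s = 1`, `l = (p-1)/3` if `p ≡ 1`, `l = (2p-1)/3` if `p ≡ 2`
mod 3; for `s = -1`, `l = (p+1)/3` if `p ≡ 2`, `l = (2p+1)/3` if `p ≡ 1`. -/
def StmtUCP : Prop := ∀ (s : ℤ) (m p : ℕ) (N : ℤ), s = 1 ∨ s = -1 → p.Prime → m < p → 2 * p + 1 ≤ 3 * m →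
  (p : ℤ) ∣ PZ s m N

/-- PACKET UPD (the primes of `PP n` divide `D_n`; from UCZ, UDT).
Proof.  `p ≥ 5`, `(3n+1)/2 < p ≤ 3n+1` (so `2p ≥ 3n+2`, `p > n + 1`).  `p ≡ 1` mod 3: `p = 3l + 1` with `1 ≤ l ≤ n`, so `p` divides
`∏ (3n + 1 - 3i)` and (`p ∤ n!`) `p ∣ cz 1 n n`.  `p ≡ 2`: `p ≤ 3n - 1`, `p = 3l - 1` with `l ≤ n`, `p ∣ cz (-1) n n`.  As
`D_n (n+1) = 6 cz cz` and `p ∤ n + 1`: `p ∣ D_n`. -/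
def StmtUPD : Prop := ∀ n p : ℕ, 2 ≤ n → p ∈ PP n → (p : ℤ) ∣ DD n

/-- PACKET UKY (the key inequality; from UDT, UC3, UCP, UPD).
Proof.  `G_n G_(n+1) ∣ D_n` (UDT det).  `c' = 3^((n+2)/2) ∏_(p ∈ PC n) p` divides `G_(n+1)` (UC3, UCP with `m = n+1`; pairwise
coprime, `p > n+1 ≥ 3`).  So `G_n c' ∣ D_n`.  A prime `p ∈ PP n` with `p ∤ G_n` divides `D_n` (UPD) and neither `G_n` nor `c'`, so the
product of these primes times `G_n c'` divides `D_n`: `G_n c' ∏_(p ∤ G_n) p ≤ D_n`.  With `Π = ∏_(p ∈ PP n, p ∣ G_n) p`,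
`U = ∏_(p ∈ PP n) p`: `G_n c' U ≤ D_n Π`.  If `D_n < G_n²` then `(c' U)² D_n < (c' U)² G_n² ≤ D_n² Π²`. -/
def StmtUKY : Prop := ∀ n N : ℕ, 2 ≤ n → 1 ≤ N → DD n < (GG n (N : ℤ) : ℤ) ^ 2 →
  (3 ^ ((n + 2) / 2) * (∏ p ∈ PC n, (p : ℤ)) * ∏ p ∈ PP n, (p : ℤ)) ^ 2
    < DD n * (∏ p ∈ (PP n).filter (fun p => p ∣ GG n (N : ℤ)), (p : ℤ)) ^ 2

/-- PACKET URT (few common roots modulo `p`; from UCZ).
Proof.  `p ∈ PP n`: `p ≥ 5` prime, `3n + 2 ≤ 2p`, `p ≤ 3n + 1`.  (i) `p ∣ (2n-j choose n)` iff `j ≤ 2n - p` (`n < p`, `2n - j < 2p`).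
(ii) `p ≡ 1` mod 3: `p = 3l₀ + 1`, `1 ≤ l₀ ≤ n`, `a = n - l₀ = (3n+1-p)/3`.  By UCZ mul, `p ∣ cz 1 n j` iff one of the
`3l + 1`, `n-j+1 ≤ l ≤ n`, is divisible by `p`, iff `j > a` (`3l+1 = 2p` is impossible mod 3, `3l + 1 < 4p`).  So mod `p`, with `y = 9N`:
`PZ 1 n N ≡ y^(n-a) F(y)`, `F(y) = ∑_(j₀ ≤ j ≤ a) c_j y^(a-j)`, `j₀ = max 0 (2n-p+1)`, and `c_a ≢ 0` (`2n - a < p`), so `F ≠ 0` has at
most `a - j₀` roots.  `N ≡ 0` is not a common root: `PZ (-1) n 0 = cz (-1) n n` and `3l - 1` (`1 ≤ l ≤ n`) is not divisible by `p`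
(`2p > 3n - 1`).  If `p ≤ 2n`: `a - j₀ = (2p-2-3n)/3 ≤ (p-4)/6`; if `p > 2n`: `a ≤ (p+2)/6` (`3n ≤ (3p-1)/2`).
(iii) `p ≡ 2`: `p = 3l₀ - 1`, `l₀ ≤ n`, exchange the roles: `PZ (-1) n N ≡ y^(n-b) F(y)`, `b = n - l₀ = (3n-1-p)/3`, at most `b - j₀`
nonzero roots, `c_b ≢ 0` (if `b < j₀` the statement is still true?  no: `2p ≥ 3n+2` gives `b ≥ j₀ - 1`; if `b = j₀ - 1` then
`2p = 3n + 1`, excluded), and `PZ 1 n 0 = cz 1 n n ≢ 0` (`3l+1 = 2p` would need `2p ≤ 3n+1`).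
So at most `(p+2)/6` common roots. -/
def StmtURT : Prop := ∀ n p : ℕ, 2 ≤ n → p ∈ PP n →
  6 * ((range p).filter (fun a : ℕ => (p : ℤ) ∣ PZ 1 n a ∧ (p : ℤ) ∣ PZ (-1) n a)).card ≤ p + 2

/-- PACKET UCR (Chinese remainder count).
Proof.  `m = ∏_(p ∈ S) p ≤ X`.  The residues `N mod m` of the `N` in question lie in a set of `∏ |A_p|` classes mod `m`
(`Nat.chineseRemainder`, or induction on `S`), each class has at most `X/m + 1 ≤ 2X/m` elements in `(X, 2X]`. -/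
def StmtUCR : Prop := open Classical in ∀ (X : ℕ) (S : Finset ℕ) (E : ℕ → ℕ → Prop), (∀ p ∈ S, p.Prime) → ∏ p ∈ S, p ≤ X →
  (∀ p ∈ S, ∀ N, E p N ↔ E p (N % p)) →
  (((Ioc X (2 * X)).filter (fun N => ∀ p ∈ S, E p N)).card : ℝ)
    ≤ 2 * X * ∏ p ∈ S, ((((range p).filter (fun a => E p a)).card : ℝ) / p)

/-- PACKET ULD (large deviations; from UCR).
Proof.  For `N` in the set let `S_N = {p ∈ Ps : E p N}`; `W < ∏_(p ∈ S_N) p ≤ M^(#S_N)` so `#S_N > log W / log M` and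
`(3/2)^(#S_N) ≥ (3/2)^(log W/log M)`.  `(3/2)^(#S_N) = ∑_(S ⊆ S_N) (1/2)^(#S)`, so summing over all `N ∈ (X, 2X]` and using UCR for
every `S ⊆ Ps` (`∏_(p ∈ S) p ≤ ∏_(p ∈ Ps) p ≤ X`): `∑_N (3/2)^(#S_N) ≤ 2X ∑_(S ⊆ Ps) ∏_(p ∈ S) (1/2)(p+2)/(6p) =
2X ∏_(p ∈ Ps) (1 + (p+2)/(12p))` (`Finset.prod_one_add`). -/
def StmtULD : Prop := open Classical in ∀ (X M : ℕ) (Ps : Finset ℕ) (E : ℕ → ℕ → Prop) (W : ℝ), 2 ≤ M →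
  (∀ p ∈ Ps, p.Prime ∧ p ≤ M) → ∏ p ∈ Ps, p ≤ X → (∀ p ∈ Ps, ∀ N, E p N ↔ E p (N % p)) →
  (∀ p ∈ Ps, 6 * ((range p).filter (fun a => E p a)).card ≤ p + 2) → 1 ≤ W →
  (((Ioc X (2 * X)).filter (fun N => W < ∏ p ∈ Ps.filter (fun p => E p N), (p : ℝ))).card : ℝ)
    ≤ 2 * X * (3 / 2 : ℝ) ^ (-(Real.log W / Real.log M)) * ∏ p ∈ Ps, (1 + ((p : ℝ) + 2) / (12 * p))

/-- PACKET UAS (asymptotics; from UDT; the prime number theorem is `Helper56.theta_div_tendsto`, module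
`Pool.Agent.Helper56.PNT`).
Proof.  `log W_n = ⌊(n+2)/2⌋ log 3 + θ(3n+1) - θ(n+1) - (1/2) log D_n ≥ (n/2) log 3 + θ(3n+1) - θ(n+1) - (log 6)/2 - 2n log 3`; by the
prime number theorem this is `(2 - (3/2) log 3) n + o(n) = 0.352.. n + o(n)`, so `≥ 0.35 n` for large `n` (in particular
`W_n ≥ 1`).  The number of primes in `PP n` is at most `(θ(3n+1) - θ((3n+1)/2)) / log(3n/2) ≤ (1.5 + o(1)) n / log n`, each factor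
`1 + (p+2)/(12p) ≤ 13/12 + 1/(6p) ≤ 1.0834` for large `n`.  So the logarithm of the left side is at most
`(n/log n)(-0.35 log (3/2) + 1.5 log 1.0834 + o(1))`, `-0.35 · 0.4054 + 1.5 · 0.0802 < -0.021`. -/
def StmtUAS : Prop := ∃ n₀ : ℕ, 2 ≤ n₀ ∧ ∀ n : ℕ, n₀ ≤ n → ∀ W : ℝ,
  W = (3 ^ ((n + 2) / 2) * (∏ p ∈ PC n, (p : ℝ)) * ∏ p ∈ PP n, (p : ℝ)) / Real.sqrt (DD n : ℝ) →
  1 ≤ W ∧ (3 / 2 : ℝ) ^ (-(Real.log W / Real.log ((3 * n + 1 : ℕ) : ℝ))) * ∏ p ∈ PP n, (1 + ((p : ℝ) + 2) / (12 * p))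
    ≤ Real.exp (-(n / (100 * Real.log n)))

/-- PACKET USM (a convergent series and the size of the primorial).
Proof.  `exp (-n/(100 log n)) ≤ n^(-2)` for large `n`, so the tails of the series tend to `0`.  `∏_(p ∈ PP n) p ≤ primorial (3n+1) ≤
4^(3n+1)` (`primorial_le_4_pow`), and `72^(2n) ≤ N ≤ 2X` gives `4^(3n+1) = 4 · 64^n ≤ 4 (72^(2n))^(1/2) ≤ 4 (2X)^(1/2) ≤ X` for
`X ≥ 32` (`64 ≤ 72`); the number of `n` with `72^(2n) ≤ 2X` is finite. -/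
structure StmtUSM : Prop where
  tail : ∀ δ : ℝ, 0 < δ → ∃ n₁ : ℕ, 2 ≤ n₁ ∧ ∀ n₂ : ℕ,
    ∑ n ∈ Ico n₁ n₂, Real.exp (-((n : ℝ) / (100 * Real.log n))) ≤ δ
  prim : ∀ X N n : ℕ, 32 ≤ X → N ≤ 2 * X → (72 : ℝ) ^ (2 * n) ≤ N → ∏ p ∈ PP n, p ≤ X

/-- U: the final theorem (assembly, helper73). -/
def StmtU : Prop := ∀ δ : ℝ, 0 < δ → ∃ (c : ℝ) (X₀ : ℕ), 0 < c ∧ ∀ X : ℕ, X₀ ≤ X →
  (({N : ℕ | X < N ∧ N ≤ 2 * X ∧ ∃ (p : ℤ) (q : ℕ), 1 ≤ q ∧ (q : ℝ) ≤ Real.exp (Real.log N ^ 2 / 10) ∧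
    |(1 + 1 / (N : ℝ)) ^ (1 / (3 : ℝ)) - (p : ℝ) / (q : ℝ)| < c / (N * (q : ℝ) ^ 2)}).ncard : ℝ) ≤ δ * X

end Pool.Agent.Helper73.SM
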