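import Mathlib
import Pool.Agent.Helper73.SM.Goals
import Pool.Agent.Helper73.SM.GoalsU
import Pool.Agent.Helper73.SM.DefsK

/-!
# Project KR (MP_c307ca_nt): packets

Final theorem.  Let `k ≥ 3`, `1 ≤ m < k`, `gcd(m, k) = 1`.  There are `κ, C, c > 0` and `X₀` such that for all
`X ≥ X₀` and all real `T ≥ 3`, at most `C X exp (-c log T / log log T)` of the integers `N` in `(X, 2X]` are such that
`|(1 + 1/N)^(m/k) - p/q| < 1 / (T N q²)` for some `p` and some `1 ≤ q ≤ exp (κ (log N)²)`.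

It extends CubeRoots (project CU: `k = 3`, `m = 1`, files GoalsU.lean and the packets U..).  The letters are the same:
`p_n = PK k m n N`, `q_n = PK k (-m) n N`, `G_n = GK k m n N`, `D_n = DK k m n`, `ξ = xk k m N`, and `K` is a real number
`≥ 8 k²` (it was `72`).  All arithmetic statements were tested by computer for `k ≤ 8`, all `m`, `n ≤ 25`.

Valuations.  Let `p` be a prime with `2k < p`, `k n + k < p²`; so every `k l + s` with `1 ≤ l ≤ n`, `s = ± m` is positive and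
less than `p²`, and `j!` has `⌊j/p⌋` factors `p`.  Let `l_s` be the residue in `[1, p)` with `k l_s + s ≡ 0`; `l_m + l_(-m) = p`,
and `l` of `Lr k m p l` is the smaller of the two, `p - l` the larger.  By KCZ mul, with the new variable `n - i`,
`v_p (ck k s n j) = #{l' ∈ (n-j, n] : l' ≡ l_s mod p} - ⌊j/p⌋`.  Write `n = n₁ p + n₀`, `n - j = a p + r` (`n₀, r < p`).
The number of `l'` is `n₁ - a + [l_s ≤ n₀] - [l_s ≤ r]` and `⌊j/p⌋ = n₁ - a - [n₀ < r]`, so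
(V)   `v_p (ck k s n j) = [l_s ≤ n₀] - [l_s ≤ r] + [n₀ < r]`.
By Kummer's theorem (`Nat.factorization_choose`..., or Lucas' theorem `Choose.choose_modEq_choose_mod_mul_choose_div`)
(B)   `p ∣ (2n-j choose n)` iff `n₀ + r ≥ p`   (add `n` and `n - j` in base `p`; `2n < p²`).
-/

set_option autoImplicit false

namespace Pool.Agent.Helper73.SM

open Finset

/-- PACKET KCZ (from INT; as UCZ, Helper57/SM/UCZ.lean).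
Proof.  `ck k s n j * j! = k^j ∏ (kn + s - ki)` is INT with `a = kn + s`.  `Ring.choose ν j = ∏ (ν - i) / j!`, so
`ck k s n j = k^(2j) Ring.choose (n + s/k) j`.  Third: the `j`-th term of `(k²N)^n PA (m/k) n (1/N)` is
`Ring.choose (n + m/k) j (2n-j choose n) k^(2n) N^(n-j)`; fourth: the same with `-m`. -/
structure StmtKCZ : Prop where
  mul : ∀ (k : ℕ) (s : ℤ) (n j : ℕ), ck k s n j * (j.factorial : ℤ)
    = (k : ℤ) ^ j * ∏ i ∈ range j, ((k : ℤ) * (n : ℤ) + s - (k : ℤ) * (i : ℤ))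
  cast : ∀ (k : ℕ) (s : ℤ) (n j : ℕ), 1 ≤ k →
    (ck k s n j : ℝ) = (k : ℝ) ^ (2 * j) * Ring.choose ((n : ℝ) + (s : ℝ) / (k : ℝ)) j
  pa : ∀ k m n N : ℕ, 1 ≤ k → 1 ≤ N →
    (PK k (m : ℤ) n (N : ℤ) : ℝ) = ((k : ℝ) ^ 2 * (N : ℝ)) ^ n * PA ((m : ℝ) / (k : ℝ)) n (1 / (N : ℝ))
  pb : ∀ k m n N : ℕ, 1 ≤ k → 1 ≤ N →
    (PK k (-(m : ℤ)) n (N : ℤ) : ℝ) = ((k : ℝ) ^ 2 * (N : ℝ)) ^ n * PB ((m : ℝ) / (k : ℝ)) n (1 / (N : ℝ))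

/-- PACKET KDT (from SAA, BIN, KCZ; as UDT, Helper80/SM/UDT.lean).
Proof.  As UDT with `ν = m/k`: `E = A_n B_(n+1) - A_(n+1) B_n = κ X^(2n+1)`, `κ = -2ν (n+ν choose n)(n-ν choose n)/(n+1)`, so
`p_(n+1) q_n - p_n q_(n+1) = - (k²N)^(2n+1) κ N^(-2n-1) = k^(4n+2) (2m/k) (n+ν choose n)(n-ν choose n)/(n+1)
= 2 m k · ck k m n n · ck k (-m) n n / (n+1)`.  Bounds: `0 < (n-ν choose n) ≤ 1` (BIN le), `0 < (n+ν choose n) =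
((n+1) - (1-ν) choose n) ≤ n + 1` (BIN le with `1 - ν`), so `0 < D_n ≤ 2 m k k^(4n)`. -/
structure StmtKDT : Prop where
  det : ∀ k m n N : ℕ, 1 ≤ m → m < k → 1 ≤ N →
    PK k (m : ℤ) (n + 1) N * PK k (-(m : ℤ)) n N - PK k (m : ℤ) n N * PK k (-(m : ℤ)) (n + 1) N = DK k m n
  mul : ∀ k m n : ℕ, 1 ≤ m → m < k →
    DK k m n * ((n : ℤ) + 1) = 2 * (m : ℤ) * (k : ℤ) * ck k (m : ℤ) n n * ck k (-(m : ℤ)) n n
  pos : ∀ k m n : ℕ, 1 ≤ m → m < k → 1 ≤ DK k m n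
  le : ∀ k m n : ℕ, 1 ≤ m → m < k → (DK k m n : ℝ) ≤ 2 * (k : ℝ) ^ 2 * (k : ℝ) ^ (4 * n)

/-- PACKET KSZ (from KCZ, REM, BIN; as USZ, Helper80/SM/USZ.lean, with `72` replaced by `8 k²`). -/
structure StmtKSZ : Prop where
  pos : ∀ k m n N : ℕ, 1 ≤ m → m < k → 2 ≤ N → 1 ≤ PK k (-(m : ℤ)) n (N : ℤ)
  le : ∀ k m n N : ℕ, 1 ≤ m → m < k → 2 ≤ N →
    (PK k (-(m : ℤ)) n (N : ℤ) : ℝ) ≤ (8 * (k : ℝ) ^ 2 * (N : ℝ)) ^ n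
  rem : ∀ k m n N : ℕ, 1 ≤ m → m < k → 2 ≤ N →
    |(PK k (m : ℤ) n (N : ℤ) : ℝ) - xk k m N * (PK k (-(m : ℤ)) n (N : ℤ) : ℝ)|
      ≤ 2 / (N : ℝ) * (8 * (k : ℝ) ^ 2 / (N : ℝ)) ^ n
  step : ∀ k m n N : ℕ, 1 ≤ m → m < k → 2 ≤ N → (1 + 1 / (N : ℝ)) ^ (n + 1) ≤ 2 →
    (PK k (-(m : ℤ)) (n + 1) (N : ℤ) : ℝ) ≤ 8 * (k : ℝ) ^ 2 * N * (PK k (-(m : ℤ)) n (N : ℤ) : ℝ)

/-- PACKET KPR (every good fraction is a Padé approximant; from KSZ; as UPR, Helper95/SM/UPR.lean).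
Proof.  Let `Λ = log N` and let `n` be minimal with `R < (N/4)(N/K)^n`.  If `n ≥ 1` then `R ≥ (N/4)(N/K)^(n-1)`, so
`(n-1)(Λ - log K) ≤ Λ²/(4 log K) + log 4 - Λ`, and `n ≤ Λ/(2 log K)`, i.e. `K^(2n) ≤ N`, for large `N` (depending on `K`).
`q_n |P - ξ R| ≤ (KN)^n c/(N R)` is at most `(KN)^n (4c/N²)(K/N)^(n-1) = 4c K^(2n-1)/N ≤ 4c/K < 1/2` for `n ≥ 1` and
`c/N < 1/2` for `n = 0`; `R |p_n - ξ q_n| ≤ R (2/N)(K/N)^n < 1/2`.  So `|P q_n - R p_n| < 1` is `0`. -/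
def StmtKPR : Prop := ∀ (k m : ℕ) (K : ℝ), Ok k m → 8 * (k : ℝ) ^ 2 ≤ K → ∃ N₁ : ℕ, 2 ≤ N₁ ∧ ∀ N : ℕ, N₁ ≤ N →
  ∀ (c : ℝ) (P : ℤ) (R : ℕ), 0 < c → c ≤ 1 / 16 → 1 ≤ R → (R : ℝ) ≤ Real.exp (Real.log N ^ 2 / (4 * Real.log K)) →
  (R : ℝ) * |(P : ℝ) - xk k m N * R| < c / N →
  ∃ n : ℕ, K ^ (2 * n) ≤ N ∧ P * PK k (-(m : ℤ)) n (N : ℤ) = R * PK k (m : ℤ) n (N : ℤ)

/-- PACKET KVL (from KSZ, KDT; as UVL, Helper80/SM/UVL.lean).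
Proof.  `q_n = R G_n`, `p_n = P G_n`.  `D_n = q_n (p_(n+1) - ξ q_(n+1)) - q_(n+1) (p_n - ξ q_n)` and
`q_n |p_(n+1) - ξ q_(n+1)| ≤ (KN)^n (2/N)(K/N)^(n+1) = 2 K^(2n+1)/N² ≤ 2K/N ≤ 1/2 ≤ D_n/2`.  So
`q_(n+1) |p_n - ξ q_n| ≥ D_n/2`, and `q_(n+1) ≤ K N q_n` (KSZ step; `(1+1/N)^(n+1) ≤ exp ((n+1)/N) ≤ 2` as
`n + 1 ≤ K^(2n)/2 ≤ N/2` for `n ≥ 1`).  Hence `q_n |p_n - ξ q_n| ≥ D_n/(2 K N)`; divide by `G_n²`. -/
def StmtKVL : Prop := ∀ (k m : ℕ) (K : ℝ), Ok k m → 8 * (k : ℝ) ^ 2 ≤ K → ∀ (N n : ℕ) (P : ℤ) (R : ℕ),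
  4 * K ≤ (N : ℝ) → K ^ (2 * n) ≤ N → 1 ≤ R → IsCoprime P (R : ℤ) →
  P * PK k (-(m : ℤ)) n (N : ℤ) = R * PK k (m : ℤ) n (N : ℤ) →
  (DK k m n : ℝ) / (2 * K * N * (GK k m n (N : ℤ) : ℝ) ^ 2) ≤ (R : ℝ) * |(P : ℝ) - xk k m N * R|

/-- PACKET KVD (the valuation of `D_n`; from KCZ, KDT).
Proof.  `p ∤ 2 m k (n+1)`, so by KDT mul `v_p (D_n) = v_p (ck k m n n) + v_p (ck k (-m) n n)`.  By (V) with `j = n` (`a = r = 0`):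
`v_p (ck k s n n) = [l_s ≤ n₀]`, and `{l_m, l_(-m)} = {l, p - l}`. -/
def StmtKVD : Prop := ∀ k m n p l : ℕ, Ok k m → p.Prime → 2 * k < p → k * n + k < p ^ 2 → ¬ p ∣ n + 1 → Lr k m p l →
  padicValInt p (DK k m n) = (if l ≤ n % p then 1 else 0) + (if p ≤ n % p + l then 1 else 0)

/-- PACKET KCP (the primes with `n mod p ≥ p - l` divide both polynomials; from KCZ).
Proof.  Term `j`, `s = ± m`.  `n₀ ≥ p - l ≥ l_s`.  If `n₀ + r ≥ p` use (B).  Otherwise `r < p - n₀ ≤ l ≤ l_s` and (V) gives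
`v_p (ck k s n j) ≥ [l_s ≤ n₀] - [l_s ≤ r] = 1`. -/
def StmtKCP : Prop := ∀ k m n p l : ℕ, Ok k m → p.Prime → 2 * k < p → k * n + k < p ^ 2 → Lr k m p l →
  p ≤ n % p + l → ∀ N : ℤ, (p : ℤ) ∣ PK k (m : ℤ) n N ∧ (p : ℤ) ∣ PK k (-(m : ℤ)) n N

/-- PACKET KRT (few common roots modulo `p`; from KCZ).
Proof.  Let `s` be the sign with `l_s = l`; `l ≤ n₀ < p - l`.  The coefficient of `N^e` in `PK k s n N` is
`ck k s n (n-e) (n+e choose n) k^(2e)`; with `e = a p + r` it is prime to `p` iff `l ≤ r ≤ n₀` and `r < p - n₀` ((V) and (B)), i.e.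
`l ≤ r ≤ h`, `h = min n₀ (p-1-n₀)`; `l ≤ h`, and all `e = a p + r` with `0 ≤ a ≤ n₁`, `l ≤ r ≤ h` occur.  For `N ≢ 0` mod `p`:
`N^(ap+r) ≡ N^(a+r)`, so `PK k s n N ≡ N^l F(N)`, `deg F ≤ n₁ + h - l`, and the coefficient of `N^(n₁+h-l)` in `F` comes from
`a = n₁, r = h` only, so it is not `0` mod `p`: at most `n₁ + h - l` nonzero roots.  `N ≡ 0` is not a common root:
`PK k (-s) n 0 = ck k (-s) n n` has valuation `[p - l ≤ n₀] = 0`.  Finally `h ≤ (p-1)/2`, `k l ≥ p - m` (`p ∣ k l ± m`,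
`k l ± m > 0`), so `2k (n₁ + h - l) ≤ 2k n₁ + k p - 2p + 2m`. -/
def StmtKRT : Prop := ∀ k m n p l : ℕ, Ok k m → p.Prime → 2 * k < p → k * n + k < p ^ 2 → Lr k m p l →
  l ≤ n % p → n % p + l < p →
  2 * k * ((range p).filter
      (fun a : ℕ => (p : ℤ) ∣ PK k (m : ℤ) n a ∧ (p : ℤ) ∣ PK k (-(m : ℤ)) n a)).card
    ≤ (k - 2) * p + 2 * k * (n / p) + 2 * k

/-- PACKET KPK (the primes dividing `k`; from KCZ, KDT).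
Proof.  Let `v = v_p(k) ≥ 1`.  `kn ± m - ki` is prime to `p` (`gcd(m,k) = 1`), so `v_p (ck k s n j) = j v - v_p(j!)`, and the `j`-th
term of `PK k s n N` has valuation at least `j v - v_p(j!) + 2 v (n-j) ≥ e_n := n v - v_p(n!)`.  So `p^(e_n) ∣ G_n`, all `n`.
`v_p (D_n) = v_p(2k) + 2 e_n - v_p(n+1)` (KDT mul), `G_n G_(n+1) ∣ D_n` (KDT det) and
`v_p (G_(n+1)) ≥ e_(n+1) = e_n + v - v_p(n+1)`, so `v_p (G_n) ≤ e_n + v_p(2)` and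
`2 v_p (G_n) - v_p (D_n) ≤ 2 v_p(2) - v_p(2k) + v_p(n+1) = v_p(2) - v + v_p(n+1) ≤ v_p(n+1)`. -/
def StmtKPK : Prop := ∀ k m n p N : ℕ, Ok k m → p.Prime → p ∣ k → 1 ≤ N →
  2 * padicValNat p (GK k m n (N : ℤ)) ≤ padicValInt p (DK k m n) + padicValNat p (n + 1)

/-- PACKET KSM (all prime factors of `D_n`; from KCZ, KDT).
Proof.  First: `D_n (n+1) = 2 m k ck ck`, `p ∤ k`, so `v_p (D_n) ≤ v_p (2m) + v_p (ck k m n n) + v_p (ck k (-m) n n)`, and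
`v_p (ck k s n n) = ∑_(e ≥ 1) (#{1 ≤ l ≤ n : p^e ∣ k l + s} - ⌊n/p^e⌋)`, each term is at most `1` (`≤ ⌊n/p^e⌋ + 1` numbers in a
residue class) and is `0` for `p^e > k n + m`, so `p^(v_p (ck)) ≤ k n + m`.  Second: if `p ∤ 2 m k` then `p ∣ ck k s n n`, so `p` divides
one of the `k l + s`, `1 ≤ l ≤ n`; otherwise `p ≤ k` (`k ≥ 3`). -/
structure StmtKSM : Prop where
  pow : ∀ k m n p : ℕ, Ok k m → p.Prime → ¬ p ∣ k → p ^ (padicValInt p (DK k m n)) ≤ 2 * k * (k * n + k) ^ 2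
  le : ∀ k m n p : ℕ, Ok k m → p.Prime → (p : ℤ) ∣ DK k m n → p ≤ k * n + k

/-- PACKET KLL (the number `l`).
Proof.  `p ∤ 2 k m`.  Let `l₁ ∈ [1, p)` with `k l₁ ≡ -m` mod `p` (`k` is invertible mod `p`); then `k (p - l₁) ≡ m`; `l` is the smaller one,
`2 l ≠ p`.  `k l + m > 0` and `k l - m > 0`, one of them is a positive multiple of `p`, so `p ≤ k l + m`.  Let `k l ± m = t p`.
`2 t p = 2 k l ± 2m < k p + 2m < (k + 1) p`, so `2 t ≤ k`.  If `2t = k` then `t ∣ k` and `m = ± (t p - k l)` is divisible by `t`, so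
`t = 1` (`gcd(m, k) = 1`), `k = 2`, excluded.  So `2t ≤ k - 1` and `2 k l ≤ 2 t p + 2m ≤ (k-1) p + 2m`. -/
def StmtKLL : Prop := ∀ k m p : ℕ, Ok k m → p.Prime → 2 * k < p →
  ∃ l : ℕ, Lr k m p l ∧ p ≤ k * l + m ∧ 2 * k * l ≤ (k - 1) * p + 2 * m

/-- PACKET KKY (the key inequality; from KDT, KVD, KCP, KPK, KSM, KLL).
Proof.  `0 < log (G_n²) - log D_n = ∑_p (2 v_p (G_n) - v_p (D_n)) log p`, the sum over the primes `p ≤ k n + k` (KSM le;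
`G_n G_(n+1) ∣ D_n` by KDT det, so `v_p (G_n) + v_p (G_(n+1)) ≤ v_p (D_n)`).  The terms:
(1) `p ∣ k`: at most `v_p (n+1) log p` (KPK), total at most `log (n+1)`.
(2) `p ∤ k` and (`p ≤ M`, or `p ∣ n+1`): at most `v_p (D_n) log p ≤ log (2k(kn+k)²)` (KSM pow); there is at most one prime
`p > M` with `p ∣ n + 1` as `n + 1 < (M+1)²`.
(3) `p > M`, `p ∤ n+1` (so `p > 2k`, `k n + 2k < p²`), `l` from KLL.  `n % p < l`: `v_p (D_n) = 0` by KVD, the term is `0`.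
`l ≤ n % p`, `n % p + l < p`: `p ∈ RK`, `v_p (D_n) = 1`, the term is `log p` if `p ∣ G_n` and `- log p` otherwise.
`p ≤ n % p + l`: `v_p (D_n) = 2` and `p ∣ G_(n+1)` by KCP for `n + 1` (`(n+1) % p = n % p + 1`), so `v_p (G_n) ≤ 1`: the term is
`≤ 0`. -/
def StmtKKY : Prop := ∀ k m n N M : ℕ, Ok k m → 1 ≤ N → 2 * k ≤ M → k * n + 2 * k < (M + 1) ^ 2 →
  DK k m n < (GK k m n (N : ℤ) : ℤ) ^ 2 →
  ∑ p ∈ RK k m n M, Real.log p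
    ≤ 2 * ∑ p ∈ (RK k m n M).filter (fun p => p ∣ GK k m n (N : ℤ)), Real.log p
      + ((Nat.primeCounting M : ℝ) + 2) * Real.log (2 * k * (k * n + k) ^ 2)

/-- PACKET KLD (large deviations; from UCR; as ULD, Helper40/SM/ULD.lean).
Proof.  For `N` in the set and `S_N = {p ∈ Ps : E p N}`: `(1+β)^u ≤ (1+β)^(#S_N) = ∑_(S ⊆ S_N) β^(#S)`; sum over all `N ∈ (X, 2X]`,
UCR for every `S ⊆ Ps`: `∑_N (1+β)^(#S_N) ≤ 2X ∑_(S ⊆ Ps) ∏_(p ∈ S) β θ = 2X (1+βθ)^(#Ps)`. -/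
def StmtKLD : Prop := open Classical in ∀ (X : ℕ) (Ps : Finset ℕ) (E : ℕ → ℕ → Prop) (θ β u : ℝ), 0 ≤ θ → 0 < β →
  (∀ p ∈ Ps, p.Prime) → ∏ p ∈ Ps, p ≤ X → (∀ p ∈ Ps, ∀ N, E p N ↔ E p (N % p)) →
  (∀ p ∈ Ps, (((range p).filter (fun a => E p a)).card : ℝ) ≤ θ * p) →
  (((Ioc X (2 * X)).filter (fun N => u ≤ ((Ps.filter (fun p => E p N)).card : ℝ))).card : ℝ)
    ≤ 2 * X * ((1 + β) ^ (-u) * (1 + β * θ) ^ Ps.card)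

/-- PACKET KPN (prime number theorem: `Helper56.theta_div_tendsto`, module `Pool.Agent.Helper56.PNT`; see also
Helper40/SM/UAS.lean).
Proof.  `θ(2n + ⌊n/k⌋) - θ(2n) = n/k + o(n)`.  Second: `π(y) ≤ √y + 2 θ(y)/log y ≤ 5 y / log y` for large `y` (or
`π(y) ≤ 1 + ...` by Chebyshev), with `y = ⌊n/B⌋`; `log (2k(kn+k)²) ≤ 3 log n` and `log (n/B) ≥ (log n)/2` for large `n`, so the left side
is at most `30 n/B + o(n)`; take `B > 60/ε`. -/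
structure StmtKPN : Prop where
  lo : ∀ k : ℕ, 3 ≤ k → ∃ n₀ : ℕ, ∀ n : ℕ, n₀ ≤ n →
    (n : ℝ) / (2 * k) ≤ ∑ p ∈ (Ioc (2 * n) (2 * n + n / k)).filter Nat.Prime, Real.log p
  hi : ∀ (k : ℕ) (ε : ℝ), 1 ≤ k → 0 < ε → ∃ B n₀ : ℕ, 1 ≤ B ∧ ∀ n : ℕ, n₀ ≤ n →
    ((Nat.primeCounting (n / B) : ℝ) + 2) * Real.log (2 * k * (k * n + k) ^ 2) ≤ ε * n

/-- PACKET KAS (asymptotics; from KPN, KLL).
Proof.  `B` from KPN hi with `ε = 1/(32 k²)`, `M = n/B`, `r = #RK`.  (1) clear for large `n`.  (2) For large `n` every prime `p` with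
`2n < p ≤ 2n + n/k` is in `RK`: `n % p = n`, `p ∤ n + 1`; KLL gives `l` with `2kl ≤ (k-1)p + 2m ≤ (2k - 1 - 1/k) n + 2k ≤ 2kn`, so `l ≤ n`; and
`2k(n + l) ≤ 2kn + (k-1)p + 2m < 2kp` as `(k+1) p > (k+1) 2n ≥ 2kn + 2m`.  So by KPN lo `∑_(RK) log p ≥ n/(2k)` and
`r ≥ n/(2k log (kn+k)) ≥ n/(4k log n)`.  (3) `(π(M)+2) log(..) ≤ n/(32k²) ≤ (1/(16k)) ∑_(RK) log p`, so
`∑_Q log p ≥ (1/2)(1 - 1/(16k)) ∑_(RK) log p ≥ (1/2)(1 - 1/(16k)) r log (n/B)`, `∑_Q log p ≤ #Q log (kn+k)` and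
`log (n/B) / log (kn+k) → 1`.  (4) `p > n/B` gives `n/p ≤ B`, and `2k(B+1) ≤ p` for large `n`. -/
def StmtKAS : Prop := ∀ k m : ℕ, Ok k m → ∃ (B n₀ : ℕ) (c : ℝ), 1 ≤ B ∧ 3 ≤ n₀ ∧ 0 < c ∧ ∀ n : ℕ, n₀ ≤ n →
  (2 * k ≤ n / B ∧ k * n + 2 * k < (n / B + 1) ^ 2) ∧
  c * (n / Real.log n) ≤ ((RK k m n (n / B)).card : ℝ) ∧
  (∀ Q : Finset ℕ, Q ⊆ RK k m n (n / B) →
    ∑ p ∈ RK k m n (n / B), Real.log p ≤ 2 * ∑ p ∈ Q, Real.log p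
      + ((Nat.primeCounting (n / B) : ℝ) + 2) * Real.log (2 * k * (k * n + k) ^ 2) →
    (1 / 2) * (1 - 1 / (4 * (k : ℝ))) * ((RK k m n (n / B)).card : ℝ) ≤ (Q.card : ℝ)) ∧
  (∀ p ∈ RK k m n (n / B), ∀ a : ℕ, 2 * k * a ≤ (k - 2) * p + 2 * k * (n / p) + 2 * k →
    (a : ℝ) ≤ ((k : ℝ) - 1) / (2 * k) * p)

/-- PACKET KTL (tails).
Proof.  `n/log n` is increasing for `n ≥ 3`; with `a = c₃ log T` large, `exp (-c₁ n/log n) ≤ exp (-(c₁/2) a/log a) exp (-(c₁/2) n/log n)` for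
`n ≥ a`, and `∑ exp (-(c₁/2) n/log n) < ∞` (`n/log n ≥ √n`); `a/log a ≥ c₄ log T/log log T` for large `T`. -/
def StmtKTL : Prop := ∀ c₁ c₃ : ℝ, 0 < c₁ → 0 < c₃ → ∃ C c T₀ : ℝ, 0 < C ∧ 0 < c ∧ 3 ≤ T₀ ∧ ∀ T : ℝ, T₀ ≤ T →
  ∀ n₂ : ℕ, ∑ n ∈ (range n₂).filter (fun n : ℕ => c₃ * Real.log T ≤ (n : ℝ)), Real.exp (-(c₁ * (n / Real.log n)))
    ≤ C * Real.exp (-(c * (Real.log T / Real.log (Real.log T))))

/-- PACKET KPP (size of the product; as USM prim, Helper57/SM/USM.lean).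
Proof.  `∏_(p ∈ RK) p ≤ primorial (kn+k) ≤ 4^(kn+k)`; `(4^(kn+k))² = 16^k (4^k)^(2n) ≤ 16^k N ≤ 2 · 16^k X ≤ X²`. -/
def StmtKPP : Prop := ∀ k m n M N X : ℕ, 1 ≤ k → N ≤ 2 * X → 2 * 16 ^ k ≤ X →
  (8 * (k : ℝ) ^ 2 * 4 ^ k) ^ (2 * n) ≤ N → ∏ p ∈ RK k m n M, p ≤ X

/-- KR: the final theorem (assembly, helper73). -/
def StmtKR : Prop := ∀ k m : ℕ, 3 ≤ k → 1 ≤ m → m < k → Nat.Coprime m k →
  ∃ (κ C c : ℝ) (X₀ : ℕ), 0 < κ ∧ 0 < C ∧ 0 < c ∧ ∀ X : ℕ, X₀ ≤ X → ∀ T : ℝ, 3 ≤ T →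
    (({N : ℕ | X < N ∧ N ≤ 2 * X ∧ ∃ (p : ℤ) (q : ℕ), 1 ≤ q ∧ (q : ℝ) ≤ Real.exp (κ * Real.log N ^ 2) ∧
      |(1 + 1 / (N : ℝ)) ^ ((m : ℝ) / (k : ℝ)) - (p : ℝ) / (q : ℝ)| < 1 / (T * N * (q : ℝ) ^ 2)}).ncard : ℝ)
      ≤ C * X * Real.exp (-(c * (Real.log T / Real.log (Real.log T))))

end Pool.Agent.Helper73.SM
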