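import Pool.Agent.Helper52.SM.Goals
import Pool.Agent.Helper37.CS.PTC
import Pool.Agent.Helper2.CS.PTR

/-!
# SM, packet PLM: the search in polynomial time
-/

set_option autoImplicit false

namespace Pool.Agent.Helper73.SM

open Pool.Agent.Helper81.CC Pool.Agent.Helper78.DT Pool.Agent.Helper51.ZP
open Pool.Agent.Helper65.CS Pool.Agent.Helper52.SM Pool.Agent.Helper2.CS

/-- the size of a state -/
theorem sz_stM (hD : CndStmt) (g : List Bool × List (ℕ × Bool) × ℕ → ℕ) (x : List Bool)
    (b M n N k : ℕ) : sz ((stepM g x b M n N)^[k] []) ≤ 1 + k * (n * (2 * n + 6)) := by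
  induction k with
  | zero => simp
  | succ k ih =>
    rw [Function.iterate_succ_apply']
    set t := (stepM g x b M n N)^[k] [] with ht
    have h5 : (k + 1) * (n * (2 * n + 6)) = k * (n * (2 * n + 6)) + n * (2 * n + 6) := by ring
    unfold stepM
    split
    · next e he =>
      have hm := List.mem_of_find?_eq_some he
      obtain ⟨-, h6, h7, -⟩ := hD b M n t
      obtain ⟨h8, h9, -, -⟩ := h7 e hm
      have h10 : ∀ p ∈ e, p.1 < n := fun p hp => h6 _ (h9 p hp)
      have h11 := sz_lits n e h10
      have h12 := Nat.mul_le_mul_right (2 * n + 6) (length_names n e h10 h8)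
      have h13 := sz_append e t
      omega
    · omega

theorem pt_stepM (hX : PtxStmt) (hL : Pool.Agent.Helper78.DT.PtlStmt) {α : Type} [ToData α]
    (g : List Bool × List (ℕ × Bool) × ℕ → ℕ) {B b M n N : α → ℕ} {x : α → List Bool}
    {t : α → List (ℕ × Bool)}
    (hg : PolyTime g) (hx : PolyTime x) (hB : PolyTime B) (hb : PolyTime b) (hM : PolyTime M)
    (hn : PolyTime n) (hN : PolyTime N) (ht : PolyTime t) (hbB : ∀ a, 2 ^ b a ≤ B a) :
    PolyTime fun a => stepM g (x a) (b a) (M a) (n a) (N a) (t a) := by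
  have hc : PolyTime fun a => cands (b a) (M a) (n a) (t a) :=
    Pool.Agent.Helper37.CS.pt_cands hX hL (s := fun a => t a) hB hb hM hn ht hbB
  have hg' : ∀ {β : Type} [ToData β] (u : β → List Bool) (G : β → List (ℕ × Bool)) (v : β → ℕ),
      PolyTime u → PolyTime G → PolyTime v → PolyTime fun z => g (u z, G z, v z) :=
    fun u G v hu hG hv => PolyTime.comp (g := g) (f := fun z => (u z, G z, v z)) hg
      (PolyTime.pair hu (PolyTime.pair hG hv))
  have hf : PolyTime fun a => (cands (b a) (M a) (n a) (t a)).find?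
      fun e => decide (g (x a, t a, N a) ≤ g (x a, e ++ t a, N a) + 3) := by
    refine PolyTime.find? (f := fun a e =>
      decide (g (x a, t a, N a) ≤ g (x a, e ++ t a, N a) + 3)) hc ?_
    refine PolyTime.decide_le (hg' _ _ _ (by fun_prop) (by fun_prop) (by fun_prop))
      (PolyTime.add (hg' _ _ _ (by fun_prop) (PolyTime.append (by fun_prop) (by fun_prop))
        (by fun_prop)) (by fun_prop))
  have h1 : PolyTime fun a => ((cands (b a) (M a) (n a) (t a)).find?
      fun e => decide (g (x a, t a, N a) ≤ g (x a, e ++ t a, N a) + 3)).elim (t a)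
      fun e => e ++ t a := by
    refine PolyTime.option_elim (g := fun a e => e ++ t a) hf ht ?_
    exact PolyTime.append (by fun_prop) (by fun_prop)
  refine PolyTime.congr h1 fun a => ?_
  unfold stepM
  cases (cands (b a) (M a) (n a) (t a)).find?
      fun e => decide (g (x a, t a, N a) ≤ g (x a, e ++ t a, N a) + 3) <;> rfl

/-- Packet SM-PLM: the search in polynomial time. -/
theorem plm (hX : PtxStmt) (hD : CndStmt) (hL : Pool.Agent.Helper78.DT.PtlStmt) :
    PlmStmt := by
  intro g n N hg hn hN
  have hlg : PolyTime (fun x => lg (N x)) := (hL (List Bool) _ _ _ hN hN hN).1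
  have hlog : PolyTime (fun x => Nat.log 2 (lg (N x))) :=
    (hL (List Bool) _ _ _ hlg hlg hlg).2.1
  have hbb : PolyTime (fun x => bb (lg (N x))) := by
    unfold bb
    fun_prop
  have hB : PolyTime (fun x => 4 * lg (N x) ^ 2) := by fun_prop
  have hle : ∀ x, 2 ^ bb (lg (N x)) ≤ 4 * lg (N x) ^ 2 := fun x =>
    two_pow_bb _ (by unfold lg; omega)
  have hTT : PolyTime (fun x => TT (lg (N x))) := by
    have hpw : PolyTime (fun x => 2 ^ bb (lg (N x))) :=
      (hL (List Bool) _ _ _ hB hbb hbb).2.2.2.2 hle
    unfold TT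
    fun_prop
  have hMM : PolyTime (fun x => MM (N x)) := by
    unfold MM
    fun_prop
  have hnil : PolyTime (fun _ : List Bool => ([] : List (ℕ × Bool))) := PolyTime.const _
  have hfst : PolyTime (fun p : List Bool × List (ℕ × Bool) => p.1) := by fun_prop
  have hstep : PolyTime (fun p : List Bool × List (ℕ × Bool) =>
      (fun (x : List Bool) t => stepM g x (bb (lg (N x))) (MM (N x)) (n x) (N x) t) p.1 p.2) :=
    pt_stepM hX hL g hg hfst
      (PolyTime.comp hB hfst)
      (PolyTime.comp (g := fun x => bb (lg (N x))) hbb hfst)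
      (PolyTime.comp (g := fun x => MM (N x)) hMM hfst)
      (PolyTime.comp hn hfst) (PolyTime.comp hN hfst) (by fun_prop) fun p => hle p.1
  have hit := PolyTime.iterate_bd (n := fun x => TT (lg (N x)))
    (s0 := fun _ : List Bool => ([] : List (ℕ × Bool)))
    (step := fun (x : List Bool) t => stepM g x (bb (lg (N x))) (MM (N x)) (n x) (N x) t)
    hTT hnil hstep
    (B := fun x => 1 + TT (lg (N x)) * (n x * (2 * n x + 6)))
    ((PBd.const 1).add ((PBd.nat hTT).mul ((PBd.nat hn).mul
      (((PBd.const 2).mul (PBd.nat hn)).add (PBd.const 6))))) (by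
      intro x k hk
      have h1 := sz_stM hD g x (bb (lg (N x))) (MM (N x)) (n x) (N x) k
      exact h1.trans (Nat.add_le_add_left (Nat.mul_le_mul_right _ hk) 1))
  exact ((hX (List Bool)).2.1 _ _ hn hit).2

end Pool.Agent.Helper73.SM
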