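import Mathlib
import Pool.Agent.Helper73.SM.Goals

/-!
# Project SM: assembly of the transfer theorem G
-/

set_option autoImplicit false

namespace Pool.Agent.Helper73.SM

open Finset

lemma card_box (H : ℕ) : ((box H).card : ℝ) = (2 * (H : ℝ) + 1) ^ 4 := by
  have h : ((Icc (-(H : ℤ)) H).card : ℝ) = 2 * (H : ℝ) + 1 := by
    rw [Int.card_Icc]
    have : ((H : ℤ) + 1 - -(H : ℤ)).toNat = 2 * H + 1 := by omega
    rw [this]
    push_cast
    ring
  rw [box, card_product, card_product]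
  push_cast
  rw [h]
  ring

lemma lf_eq_zero {ξ : ℝ} (hξ : Irrational ξ) {v : ℤ × ℤ} (h : lf ξ v = 0) : v = (0, 0) := by
  unfold lf at h
  have h1 : v.1 = 0 := by
    by_contra h1
    have hne : (v.1 : ℝ) ≠ 0 := by exact_mod_cast h1
    apply hξ
    refine ⟨-(v.2 : ℚ) / v.1, ?_⟩
    push_cast
    field_simp
    linarith
  have h2 : v.2 = 0 := by
    rw [h1] at h
    simp at h
    exact h
  exact Prod.ext h1 h2

lemma sz_pos {ε Q₁ : ℝ} (hQ : 4 ≤ Q₁) (i : ℕ) : 0 < sz ε Q₁ i := by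
  unfold sz
  have h1 : 0 < Real.log (max ((2 : ℝ) ^ i) Q₁) :=
    Real.log_pos (lt_of_lt_of_le (by linarith) (le_max_right _ _))
  have h2 : 0 < min 1 (((2 : ℝ) ^ (i + 1) / Q₁) ^ 2) := by
    apply lt_min one_pos
    positivity
  positivity

open Classical in
theorem goalG (hCNT : StmtCNT) (hSQ : StmtSQ) (hEB : StmtEB) (hDET : StmtDET) (hCLS : StmtCLS)
    (hKB : StmtKB) (hSI : StmtSI) (hSQS : StmtSQS) : StmtG := by
  intro ε hε
  obtain ⟨C₁, hC₁, hSI'⟩ := hSI ε hε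
  obtain ⟨C₂, hC₂, hSQS'⟩ := hSQS ε hε
  -- the threshold
  have hev : ∀ᶠ x : ℝ in Filter.atTop, 1 + Real.log (1 + 6 * x ^ 2) ≤ x ^ (1 / 20 : ℝ) := by
    have h1 : (fun x : ℝ => Real.log x) =o[Filter.atTop] fun x : ℝ => x ^ (1 / 20 : ℝ) :=
      isLittleO_log_rpow_atTop (by norm_num)
    have h2 := h1.bound (by norm_num : (0 : ℝ) < 1 / 6)
    have h3 : Filter.Tendsto (fun x : ℝ => x ^ (1 / 20 : ℝ)) Filter.atTop Filter.atTop :=
      tendsto_rpow_atTop (by norm_num)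
    filter_upwards [h2, h3.eventually_ge_atTop 6, Filter.eventually_ge_atTop 7] with x hx1 hx2 hx3
    have hx0 : 0 < x := by linarith
    have hlog0 : 0 ≤ Real.log x := Real.log_nonneg (by linarith)
    rw [Real.norm_of_nonneg hlog0, Real.norm_of_nonneg (by positivity)] at hx1
    have h4 : Real.log (1 + 6 * x ^ 2) ≤ 3 * Real.log x := by
      have h5 : 1 + 6 * x ^ 2 ≤ x ^ 3 := by nlinarith
      have h6 := Real.log_le_log (by positivity) h5
      rw [Real.log_pow] at h6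
      exact_mod_cast h6
    linarith
  obtain ⟨x₀, hx₀⟩ := Filter.eventually_atTop.1 hev
  refine ⟨1 + 10000 * C₂ + 24000000 * C₁ + 10000000000, max x₀ (2 ^ 20), by positivity, ?_⟩
  intro ξ hirr hξ2 δ c₀ hδ0 hδ1 hc₀ hlow H R hH hR1 hRδ hc₀H hlogR c Q hc hQ
  set t : ℝ := (H : ℝ) ^ (1 / 20 : ℝ) with ht
  have hHx : x₀ ≤ (H : ℝ) := le_trans (le_max_left _ _) hH
  have hH20 : (2 : ℝ) ^ 20 ≤ (H : ℝ) := le_trans (le_max_right _ _) hH
  have hHpos : (0 : ℝ) < H := by linarith [show (0:ℝ) < 2 ^ 20 by positivity]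
  have hH1 : 1 ≤ H := by
    have : (1 : ℝ) ≤ H := by linarith [show (1:ℝ) ≤ 2 ^ 20 by norm_num]
    exact_mod_cast this
  have hH1R : (1 : ℝ) ≤ H := by exact_mod_cast hH1
  have ht20 : t ^ 20 = (H : ℝ) := by
    rw [ht, ← Real.rpow_natCast, ← Real.rpow_mul hHpos.le]
    norm_num
  have ht0 : 0 < t := by positivity
  have ht2 : 2 ≤ t := by
    by_contra hlt
    push Not at hlt
    have : t ^ 20 < 2 ^ 20 := pow_lt_pow_left₀ hlt ht0.le (by norm_num)
    rw [ht20] at this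
    linarith
  have ht1 : 1 ≤ t := by linarith
  have htlog : 1 + Real.log (1 + 6 * (H : ℝ) ^ 2) ≤ t := hx₀ _ hHx
  have htinv : (H : ℝ) ^ (-(1 / 20) : ℝ) = 1 / t := by
    rw [Real.rpow_neg hHpos.le, ht, inv_eq_one_div]
  have htH : t ^ 2 ≤ H := by
    rw [← ht20]
    exact pow_le_pow_right₀ ht1 (by norm_num)
  have htH6 : t ^ 6 ≤ H := by
    rw [← ht20]
    exact pow_le_pow_right₀ ht1 (by norm_num)
  have htH' : t ≤ 2 * (H : ℝ) + 1 := by nlinarith
  rw [htinv]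
  set W : ℝ := (2 * (H : ℝ) + 1) ^ 4 with hW
  have hWpos : 0 < W := by positivity
  have hHW : (H : ℝ) ^ 4 ≤ W := by
    rw [hW]
    exact pow_le_pow_left₀ hHpos.le (by linarith) 4
  have hlogQ : 0 < Real.log Q := Real.log_pos (by linarith)
  have hlogQε : 0 < Real.log Q ^ ε := Real.rpow_pos_of_pos hlogQ ε
  by_cases hcQ : Real.log Q ^ ε < c
  · -- trivial case
    have h1 : (((box H).filter (bad ε c Q R ξ)).card : ℝ) ≤ W := by
      rw [hW, ← card_box]
      exact_mod_cast card_le_card (filter_subset _ _)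
    have h2 : 1 ≤ c / Real.log Q ^ ε := by
      rw [le_div_iff₀ hlogQε]
      linarith
    have h3 : 0 ≤ 1 / t := by positivity
    have h4 : (1 : ℝ) ≤ (1 + 10000 * C₂ + 24000000 * C₁ + 10000000000) * (c / Real.log Q ^ ε + 1 / t) := by
      have : (1 : ℝ) ≤ 1 + 10000 * C₂ + 24000000 * C₁ + 10000000000 := by
        linarith [hC₁, hC₂]
      nlinarith
    calc (((box H).filter (bad ε c Q R ξ)).card : ℝ) ≤ 1 * W := by linarith
      _ ≤ _ := mul_le_mul_of_nonneg_right h4 hWpos.le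
  push Not at hcQ
  set Q₁ : ℝ := max Q (t ^ 2) with hQ₁
  have hQ₁4 : 4 ≤ Q₁ := le_trans (by nlinarith) (le_max_right Q (t ^ 2))
  have hQQ₁ : Q ≤ Q₁ := le_max_left _ _
  have hlogQQ₁ : Real.log Q ^ ε ≤ Real.log Q₁ ^ ε :=
    Real.rpow_le_rpow hlogQ.le (Real.log_le_log (by linarith) hQQ₁) hε.le
  set D : ℝ := 6 * (H : ℝ) ^ 2 / t ^ 4 with hD
  have hD0 : 0 < D := by positivity
  set I : ℕ := ⌈4 * t + 3⌉₊ with hI
  set J : ℕ := 6 * H ^ 2 + 1 with hJ
  set N : ℕ := ⌈t ^ 2⌉₊ with hN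
  set ρ : ℕ → ℝ := fun q => c / ((q : ℝ) ^ 2 * Real.log (q : ℝ) ^ (1 + ε)) with hρ
  set lam : ℕ → ℝ := fun i => min 1 (c * sz ε Q₁ i) with hlam
  set S₁ := (box H).filter (fun g => t * |lf ξ g.2| < |lf ξ g.1|) with hS₁
  set S₂ := (box H).filter (fun g => |(dt g.1 g.2 : ℝ)| < D) with hS₂
  set S₃ := ((range N).filter (fun q : ℕ => Q ≤ (q : ℝ))).biUnion
    (fun q => (box H).filter (fun g => lf ξ g.2 ≠ 0 ∧ |lf ξ g.1| ≤ t * |lf ξ g.2| ∧
      ∃ p : ℤ, |lf ξ g.1 / lf ξ g.2 - (p : ℝ) / (q : ℝ)| ≤ ρ q)) with hS₃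
  set IS := (range I).filter (fun i : ℕ => (2 : ℝ) ^ i ≤ 2 * t * R) with hIS
  set S₄ := IS.biUnion (fun i => (range J).biUnion (fun j =>
    (box H).filter (Cls ξ (3 * H / 2 ^ j) (2 ^ i) (lam i)))) with hS₄
  -- covering
  have hcover : (box H).filter (bad ε c Q R ξ) ⊆ ((S₁ ∪ S₂) ∪ S₃) ∪ S₄ := by
    intro g hg
    rw [mem_filter] at hg
    obtain ⟨hgb, p, q, hq1, hq2, hpq⟩ := hg
    by_cases h1 : t * |lf ξ g.2| < |lf ξ g.1|
    · exact mem_union_left _ (mem_union_left _ (mem_union_left _ (mem_filter.2 ⟨hgb, h1⟩)))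
    by_cases h2 : |(dt g.1 g.2 : ℝ)| < D
    · exact mem_union_left _ (mem_union_left _ (mem_union_right _ (mem_filter.2 ⟨hgb, h2⟩)))
    push Not at h1 h2
    have hy : lf ξ g.2 ≠ 0 := by
      intro hy
      have h3 := lf_eq_zero hirr hy
      have h4 : dt g.1 g.2 = 0 := by
        rw [dt, h3]
        simp
      rw [h4] at h2
      simp at h2
      linarith
    by_cases hqt : (q : ℝ) < t ^ 2
    · apply mem_union_left
      apply mem_union_right
      rw [hS₃, mem_biUnion]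
      refine ⟨q, ?_, ?_⟩
      · rw [mem_filter, mem_range]
        exact ⟨Nat.lt_ceil.2 hqt, hq1⟩
      · rw [mem_filter]
        exact ⟨hgb, hy, h1, p, hpq⟩
    · push Not at hqt
      have hqQ₁ : Q₁ ≤ (q : ℝ) := max_le hq1 hqt
      obtain ⟨i, j, hi, hj, hcls⟩ := hCLS ε ξ t c Q₁ R H g p q hε hirr hξ2 hH1 ht2
        (le_max_right _ _) hc (hcQ.trans hlogQQ₁) hgb h1 h2 hqQ₁ hq2 hpq
      apply mem_union_right
      rw [hS₄, mem_biUnion]
      refine ⟨i, ?_, ?_⟩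
      · rw [hIS, mem_filter, mem_range]
        refine ⟨?_, hi⟩
        -- i < I
        rw [hI, Nat.lt_ceil]
        have hlog : (i : ℝ) * Real.log 2 ≤ Real.log 2 + Real.log t + Real.log R := by
          have := Real.log_le_log (by positivity) hi
          rw [Real.log_pow, Real.log_mul (by positivity) (by positivity),
            Real.log_mul (by norm_num) (by positivity)] at this
          exact this
        have hl2 : 0.69 < Real.log 2 := by linarith [Real.log_two_gt_d9]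
        have hl2' : Real.log 2 < 0.7 := by linarith [Real.log_two_lt_d9]
        have hlt : Real.log t ≤ t - 1 := by
          have := Real.log_le_sub_one_of_pos ht0
          exact this
        have h5 : (i : ℝ) * 0.69 ≤ (i : ℝ) * Real.log 2 :=
          mul_le_mul_of_nonneg_left hl2.le (Nat.cast_nonneg i)
        nlinarith
      · rw [mem_biUnion]
        refine ⟨j, ?_, ?_⟩
        · rw [mem_range, hJ]
          have h5 : (j : ℝ) < 6 * (H : ℝ) ^ 2 + 1 := by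
            have h6 : (j : ℝ) < (2 : ℝ) ^ j := by
              exact_mod_cast j.lt_two_pow_self
            linarith
          exact_mod_cast h5
        · exact mem_filter.2 ⟨hgb, hcls⟩
  -- sizes
  have hs1 : ((S₁.card : ℕ) : ℝ) ≤ 10 * W / t := hEB ξ t H hξ2 hH1 ht1 htH'
  have hs2 : ((S₂.card : ℕ) : ℝ) ≤ 15 * W / t := by
    refine (hDET D H hD0.le hH1).trans ?_
    have h1 : 8 * D * (2 * (H : ℝ) + 1) ^ 2 ≤ 12 * W / t := by
      rw [hD, hW, le_div_iff₀ ht0]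
      have h2 : 8 * (6 * (H : ℝ) ^ 2 / t ^ 4) * (2 * (H : ℝ) + 1) ^ 2 * t
          = 12 * ((2 * (H : ℝ)) ^ 2 * (2 * (H : ℝ) + 1) ^ 2) / t ^ 3 := by
        field_simp
        ring
      rw [h2, div_le_iff₀ (by positivity)]
      have h3 : (2 * (H : ℝ)) ^ 2 ≤ (2 * (H : ℝ) + 1) ^ 2 := by
        apply pow_le_pow_left₀ <;> linarith
      have h4 : (1 : ℝ) ≤ t ^ 3 := one_le_pow₀ ht1
      calc 12 * ((2 * (H : ℝ)) ^ 2 * (2 * (H : ℝ) + 1) ^ 2)
          ≤ 12 * ((2 * (H : ℝ) + 1) ^ 2 * (2 * (H : ℝ) + 1) ^ 2) := by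
            gcongr
        _ = 12 * (2 * (H : ℝ) + 1) ^ 4 * 1 := by ring
        _ ≤ 12 * (2 * (H : ℝ) + 1) ^ 4 * t ^ 3 := by
            gcongr
    have h2 : 3 * (2 * (H : ℝ) + 1) ^ 3 ≤ 3 * W / t := by
      rw [hW, le_div_iff₀ ht0]
      calc 3 * (2 * (H : ℝ) + 1) ^ 3 * t ≤ 3 * (2 * (H : ℝ) + 1) ^ 3 * (2 * (H : ℝ) + 1) := by
            gcongr
        _ = 3 * (2 * (H : ℝ) + 1) ^ 4 := by ring
    have h3 : 15 * W / t = 12 * W / t + 3 * W / t := by ring
    rw [h3]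
    linarith
  have hs3 : ((S₃.card : ℕ) : ℝ) ≤ 10000 * C₂ * (c / Real.log Q ^ ε) * W + 10000 * W / t := by
    have h1 : ((S₃.card : ℕ) : ℝ) ≤ ∑ q ∈ (range N).filter (fun q : ℕ => Q ≤ (q : ℝ)),
        10000 * (ρ q * q * (H : ℝ) ^ 4 + t * q * (H : ℝ) ^ 3) := by
      have h2 := card_biUnion_le (s := (range N).filter (fun q : ℕ => Q ≤ (q : ℝ)))
        (t := fun q => (box H).filter (fun g => lf ξ g.2 ≠ 0 ∧ |lf ξ g.1| ≤ t * |lf ξ g.2| ∧
          ∃ p : ℤ, |lf ξ g.1 / lf ξ g.2 - (p : ℝ) / (q : ℝ)| ≤ ρ q))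
      have h3 : ((S₃.card : ℕ) : ℝ) ≤ ∑ q ∈ (range N).filter (fun q : ℕ => Q ≤ (q : ℝ)),
          ((((box H).filter (fun g => lf ξ g.2 ≠ 0 ∧ |lf ξ g.1| ≤ t * |lf ξ g.2| ∧
          ∃ p : ℤ, |lf ξ g.1 / lf ξ g.2 - (p : ℝ) / (q : ℝ)| ≤ ρ q)).card : ℕ) : ℝ) := by
        rw [← Nat.cast_sum]
        exact Nat.cast_le.2 h2
      refine h3.trans (sum_le_sum ?_)
      intro q hq
      rw [mem_filter] at hq
      have hq2 : (2 : ℝ) ≤ q := hQ.trans hq.2
      have hq1 : 1 ≤ q := by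
        have : (1 : ℝ) ≤ q := by linarith
        exact_mod_cast this
      have hq0 : (0 : ℝ) < q := by linarith
      have hlogq : 0 < Real.log q := Real.log_pos (by linarith)
      have hlogq2 : 0.69 ≤ Real.log q := by
        have := Real.log_le_log (by norm_num) hq2
        linarith [Real.log_two_gt_d9]
      refine hSQ ξ t (ρ q) H q hξ2 hH1 ht1 hq1 (by positivity) ?_
      have h5 : c ≤ Real.log q ^ ε := hcQ.trans
        (Real.rpow_le_rpow hlogQ.le (Real.log_le_log (by linarith) hq.2) hε.le)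
      have h6 : ρ q ≤ 1 / ((q : ℝ) ^ 2 * Real.log q) := by
        rw [hρ]
        simp only
        rw [Real.rpow_add hlogq, Real.rpow_one, div_le_div_iff₀ (by positivity) (by positivity)]
        have : 0 < (q : ℝ) ^ 2 * Real.log q := by positivity
        calc c * ((q : ℝ) ^ 2 * Real.log q) ≤ Real.log q ^ ε * ((q : ℝ) ^ 2 * Real.log q) := by
              gcongr
          _ = 1 * ((q : ℝ) ^ 2 * (Real.log q * Real.log q ^ ε)) := by ring
      refine h6.trans ?_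
      rw [div_le_div_iff₀ (by positivity) (by positivity)]
      nlinarith [mul_le_mul hq2 hlogq2 (by norm_num) hq0.le]
    refine h1.trans ?_
    have h2 : ∑ q ∈ (range N).filter (fun q : ℕ => Q ≤ (q : ℝ)),
        10000 * (ρ q * q * (H : ℝ) ^ 4 + t * q * (H : ℝ) ^ 3)
        = 10000 * (H : ℝ) ^ 4 * c * ∑ q ∈ (range N).filter (fun q : ℕ => Q ≤ (q : ℝ)),
            1 / ((q : ℝ) * Real.log q ^ (1 + ε))
          + 10000 * t * (H : ℝ) ^ 3 * ∑ q ∈ (range N).filter (fun q : ℕ => Q ≤ (q : ℝ)), (q : ℝ) := by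
      rw [mul_sum, mul_sum, ← sum_add_distrib]
      refine sum_congr rfl fun q hq => ?_
      rw [mem_filter] at hq
      have hq0 : (0 : ℝ) < q := by linarith [hq.2]
      have hlogq : 0 < Real.log q := Real.log_pos (by linarith [hq.2])
      have : 0 < Real.log (q : ℝ) ^ (1 + ε) := Real.rpow_pos_of_pos hlogq _
      rw [hρ]
      field_simp
    rw [h2]
    have h3 := hSQS' Q hQ N
    have h4 : ∑ q ∈ (range N).filter (fun q : ℕ => Q ≤ (q : ℝ)), (q : ℝ) ≤ t ^ 4 := by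
      have h5 : ∀ q ∈ (range N).filter (fun q : ℕ => Q ≤ (q : ℝ)), (q : ℝ) ≤ t ^ 2 := by
        intro q hq
        rw [mem_filter, mem_range, hN, Nat.lt_ceil] at hq
        exact hq.1.le
      have h6 : (((range N).filter (fun q : ℕ => Q ≤ (q : ℝ))).card : ℝ) ≤ t ^ 2 := by
        have h7 : (range N).filter (fun q : ℕ => Q ≤ (q : ℝ)) ⊆ Icc 1 ⌊t ^ 2⌋₊ := by
          intro q hq
          have hq' := h5 q hq
          rw [mem_filter] at hq
          rw [mem_Icc]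
          refine ⟨?_, Nat.le_floor hq'⟩
          have : (1 : ℝ) ≤ q := by linarith [hq.2]
          exact_mod_cast this
        have h8 := card_le_card h7
        rw [Nat.card_Icc] at h8
        have h9 : (((range N).filter (fun q : ℕ => Q ≤ (q : ℝ))).card : ℝ) ≤ (⌊t ^ 2⌋₊ : ℝ) := by
          exact_mod_cast (by omega : ((range N).filter (fun q : ℕ => Q ≤ (q : ℝ))).card ≤ ⌊t ^ 2⌋₊)
        exact h9.trans (Nat.floor_le (by positivity))
      calc ∑ q ∈ (range N).filter (fun q : ℕ => Q ≤ (q : ℝ)), (q : ℝ)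
          ≤ ∑ q ∈ (range N).filter (fun q : ℕ => Q ≤ (q : ℝ)), t ^ 2 := sum_le_sum h5
        _ = (((range N).filter (fun q : ℕ => Q ≤ (q : ℝ))).card : ℝ) * t ^ 2 := by
            rw [sum_const, nsmul_eq_mul]
        _ ≤ t ^ 2 * t ^ 2 := by gcongr
        _ = t ^ 4 := by ring
    have h5 : 10000 * (H : ℝ) ^ 4 * c * ∑ q ∈ (range N).filter (fun q : ℕ => Q ≤ (q : ℝ)),
            1 / ((q : ℝ) * Real.log q ^ (1 + ε)) ≤ 10000 * C₂ * (c / Real.log Q ^ ε) * W := by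
      calc 10000 * (H : ℝ) ^ 4 * c * ∑ q ∈ (range N).filter (fun q : ℕ => Q ≤ (q : ℝ)),
            1 / ((q : ℝ) * Real.log q ^ (1 + ε))
          ≤ 10000 * (H : ℝ) ^ 4 * c * (C₂ / Real.log Q ^ ε) := by gcongr
        _ = 10000 * C₂ * (c / Real.log Q ^ ε) * (H : ℝ) ^ 4 := by ring
        _ ≤ _ := by gcongr
    have h6 : 10000 * t * (H : ℝ) ^ 3 * ∑ q ∈ (range N).filter (fun q : ℕ => Q ≤ (q : ℝ)), (q : ℝ)
        ≤ 10000 * W / t := by
      rw [le_div_iff₀ ht0]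
      calc 10000 * t * (H : ℝ) ^ 3 * (∑ q ∈ (range N).filter (fun q : ℕ => Q ≤ (q : ℝ)), (q : ℝ)) * t
          ≤ 10000 * t * (H : ℝ) ^ 3 * t ^ 4 * t := by gcongr
        _ = 10000 * (H : ℝ) ^ 3 * t ^ 6 := by ring
        _ ≤ 10000 * (H : ℝ) ^ 3 * H := by gcongr
        _ = 10000 * (H : ℝ) ^ 4 := by ring
        _ ≤ 10000 * W := by gcongr
    linarith
  have hs4 : ((S₄.card : ℕ) : ℝ) ≤ 24000000 * C₁ * (c / Real.log Q ^ ε) * W
      + 2000000000 * W / t := by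
    -- one class
    have hone : ∀ i ∈ IS, ∀ j : ℕ,
        (((box H).filter (Cls ξ (3 * H / 2 ^ j) (2 ^ i) (lam i))).card : ℝ)
        ≤ 18000000 * (c * sz ε Q₁ i) * (H : ℝ) ^ 4 * (1 / 4) ^ j
          + 60000000 * (H : ℝ) ^ 3 * t ^ 3 * (1 / 2) ^ j := by
      intro i hi j
      rw [hIS, mem_filter] at hi
      have hM : (0 : ℝ) < 3 * H / 2 ^ j := by positivity
      have hM3 : 3 * (H : ℝ) / 2 ^ j ≤ 3 * H := by
        apply div_le_self (by positivity)
        exact one_le_pow₀ (by norm_num)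
      have hm : (1 : ℝ) ≤ 2 ^ i := one_le_pow₀ (by norm_num)
      have hsz := sz_pos (ε := ε) hQ₁4 i
      have hlam0 : 0 < lam i := lt_min one_pos (mul_pos hc hsz)
      have hlam1 : lam i ≤ 1 := min_le_left _ _
      have hK1 : (1 : ℝ) ≤ 10 * H * t ^ 2 := by nlinarith
      have h1 := hCNT ξ (3 * H / 2 ^ j) (2 ^ i) (lam i) (10 * H * t ^ 2) H hH1 hM (by linarith)
        hlam0 hK1 (hKB ξ δ c₀ t R (2 ^ i) (3 * H / 2 ^ j) (lam i) H hξ2 hδ0 hδ1 hc₀ hlow ht2 ht20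
          hR1 hRδ hc₀H hm hi.2 hM hM3 hlam0 hlam1)
      refine h1.trans ?_
      have h2 : (H : ℝ) * (3 * H / 2 ^ j) = 3 * (H : ℝ) ^ 2 * (1 / 2) ^ j := by
        rw [one_div, inv_pow]
        ring
      have h3 : 1 + Real.log (1 + 2 * H * (3 * H / 2 ^ j)) ≤ t := by
        refine le_trans ?_ htlog
        have h4 : 2 * (H : ℝ) * (3 * H / 2 ^ j) ≤ 6 * (H : ℝ) ^ 2 := by nlinarith
        have h5 : (0 : ℝ) ≤ 2 * (H : ℝ) * (3 * H / 2 ^ j) := by positivity
        have := Real.log_le_log (by linarith : (0:ℝ) < 1 + 2 * (H : ℝ) * (3 * H / 2 ^ j))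
          (by linarith : 1 + 2 * (H : ℝ) * (3 * H / 2 ^ j) ≤ 1 + 6 * (H : ℝ) ^ 2)
        linarith
      have h4 : ((1 / 2 : ℝ) ^ j) ^ 2 = (1 / 4) ^ j := by
        rw [← pow_mul, mul_comm, pow_mul]
        norm_num
      have h5 : lam i * (3 * (H : ℝ) ^ 2 * (1 / 2) ^ j) ^ 2
          ≤ 9 * (c * sz ε Q₁ i) * (H : ℝ) ^ 4 * (1 / 4) ^ j := by
        have h6 : (3 * (H : ℝ) ^ 2 * (1 / 2) ^ j) ^ 2 = 9 * (H : ℝ) ^ 4 * (1 / 4) ^ j := by
          rw [mul_pow, h4]
          ring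
        rw [h6]
        have h7 : lam i ≤ c * sz ε Q₁ i := min_le_right _ _
        calc lam i * (9 * (H : ℝ) ^ 4 * (1 / 4) ^ j)
            ≤ (c * sz ε Q₁ i) * (9 * (H : ℝ) ^ 4 * (1 / 4) ^ j) := by gcongr
          _ = _ := by ring
      have h6 : 3 * (H : ℝ) ^ 2 * (1 / 2) ^ j * (10 * H * t ^ 2)
          * (1 + Real.log (1 + 2 * H * (3 * H / 2 ^ j))) ≤ 30 * (H : ℝ) ^ 3 * t ^ 3 * (1 / 2) ^ j := by
        calc 3 * (H : ℝ) ^ 2 * (1 / 2) ^ j * (10 * H * t ^ 2)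
            * (1 + Real.log (1 + 2 * H * (3 * H / 2 ^ j)))
            ≤ 3 * (H : ℝ) ^ 2 * (1 / 2) ^ j * (10 * H * t ^ 2) * t := by gcongr
          _ = _ := by ring
      rw [h2]
      nlinarith
    have hgeo4 : ∑ j ∈ range J, (1 / 4 : ℝ) ^ j ≤ 4 / 3 := by
      have := (summable_geometric_of_lt_one (by norm_num) (by norm_num : (1/4 : ℝ) < 1)).sum_le_tsum
        (range J) (fun j _ => by positivity)
      rw [tsum_geometric_of_lt_one (by norm_num) (by norm_num)] at this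
      norm_num at this ⊢
      exact this
    have hgeo2 : ∑ j ∈ range J, (1 / 2 : ℝ) ^ j ≤ 2 := by
      have := (summable_geometric_of_lt_one (by norm_num) (by norm_num : (1/2 : ℝ) < 1)).sum_le_tsum
        (range J) (fun j _ => by positivity)
      rw [tsum_geometric_of_lt_one (by norm_num) (by norm_num)] at this
      norm_num at this ⊢
      exact this
    have hI' : ∀ i ∈ IS, (((range J).biUnion (fun j =>
        (box H).filter (Cls ξ (3 * H / 2 ^ j) (2 ^ i) (lam i)))).card : ℝ)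
        ≤ 24000000 * (c * sz ε Q₁ i) * (H : ℝ) ^ 4 + 120000000 * (H : ℝ) ^ 3 * t ^ 3 := by
      intro i hi
      have h1 := card_biUnion_le (s := range J) (t := fun j =>
        (box H).filter (Cls ξ (3 * H / 2 ^ j) (2 ^ i) (lam i)))
      have h2 : (((range J).biUnion (fun j =>
        (box H).filter (Cls ξ (3 * H / 2 ^ j) (2 ^ i) (lam i)))).card : ℝ)
        ≤ ∑ j ∈ range J, (((box H).filter (Cls ξ (3 * H / 2 ^ j) (2 ^ i) (lam i))).card : ℝ) := by
        rw [← Nat.cast_sum]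
        exact Nat.cast_le.2 h1
      refine h2.trans ((sum_le_sum fun j _ => hone i hi j).trans ?_)
      rw [sum_add_distrib, ← mul_sum, ← mul_sum]
      have hsz := sz_pos (ε := ε) hQ₁4 i
      have h3 : 18000000 * (c * sz ε Q₁ i) * (H : ℝ) ^ 4 * ∑ j ∈ range J, (1 / 4 : ℝ) ^ j
          ≤ 18000000 * (c * sz ε Q₁ i) * (H : ℝ) ^ 4 * (4 / 3) := by gcongr
      have h4 : 60000000 * (H : ℝ) ^ 3 * t ^ 3 * ∑ j ∈ range J, (1 / 2 : ℝ) ^ j
          ≤ 60000000 * (H : ℝ) ^ 3 * t ^ 3 * 2 := by gcongr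
      nlinarith
    have h1 : ((S₄.card : ℕ) : ℝ) ≤ ∑ i ∈ IS,
        (24000000 * (c * sz ε Q₁ i) * (H : ℝ) ^ 4 + 120000000 * (H : ℝ) ^ 3 * t ^ 3) := by
      have h2 := card_biUnion_le (s := IS) (t := fun i => (range J).biUnion (fun j =>
        (box H).filter (Cls ξ (3 * H / 2 ^ j) (2 ^ i) (lam i))))
      have h3 : ((S₄.card : ℕ) : ℝ) ≤ ∑ i ∈ IS, (((range J).biUnion (fun j =>
        (box H).filter (Cls ξ (3 * H / 2 ^ j) (2 ^ i) (lam i)))).card : ℝ) := by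
        rw [← Nat.cast_sum]
        exact Nat.cast_le.2 h2
      exact h3.trans (sum_le_sum hI')
    have h2 : ∑ i ∈ IS,
        (24000000 * (c * sz ε Q₁ i) * (H : ℝ) ^ 4 + 120000000 * (H : ℝ) ^ 3 * t ^ 3)
        ≤ ∑ i ∈ range I,
        (24000000 * (c * sz ε Q₁ i) * (H : ℝ) ^ 4 + 120000000 * (H : ℝ) ^ 3 * t ^ 3) := by
      apply sum_le_sum_of_subset_of_nonneg (filter_subset _ _)
      intro i _ _
      have hsz := sz_pos (ε := ε) hQ₁4 i
      positivity
    have h3 : ∑ i ∈ range I,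
        (24000000 * (c * sz ε Q₁ i) * (H : ℝ) ^ 4 + 120000000 * (H : ℝ) ^ 3 * t ^ 3)
        = 24000000 * c * (H : ℝ) ^ 4 * ∑ i ∈ range I, sz ε Q₁ i
          + I * (120000000 * (H : ℝ) ^ 3 * t ^ 3) := by
      rw [sum_add_distrib, sum_const, card_range, nsmul_eq_mul, mul_sum]
      congr 1
      refine sum_congr rfl fun i _ => by ring
    have h4 := hSI' Q₁ hQ₁4 I
    have h5 : C₁ / Real.log Q₁ ^ ε ≤ C₁ / Real.log Q ^ ε :=
      div_le_div_of_nonneg_left hC₁.le hlogQε hlogQQ₁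
    have h6 : (I : ℝ) ≤ 6 * t + 4 := by
      have := (Nat.ceil_lt_add_one (by positivity : (0:ℝ) ≤ 4 * t + 3)).le
      rw [← hI] at this
      linarith
    have h7 : (I : ℝ) ≤ 8 * t := by
      have := (Nat.ceil_lt_add_one (by positivity : (0:ℝ) ≤ 4 * t + 3)).le
      rw [← hI] at this
      linarith
    have h8 : 24000000 * c * (H : ℝ) ^ 4 * ∑ i ∈ range I, sz ε Q₁ i
        ≤ 24000000 * C₁ * (c / Real.log Q ^ ε) * W := by
      calc 24000000 * c * (H : ℝ) ^ 4 * ∑ i ∈ range I, sz ε Q₁ i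
          ≤ 24000000 * c * (H : ℝ) ^ 4 * (C₁ / Real.log Q ^ ε) := by
            gcongr
            exact h4.trans h5
        _ = 24000000 * C₁ * (c / Real.log Q ^ ε) * (H : ℝ) ^ 4 := by ring
        _ ≤ _ := by gcongr
    have h9 : I * (120000000 * (H : ℝ) ^ 3 * t ^ 3) ≤ 2000000000 * W / t := by
      rw [le_div_iff₀ ht0]
      have h10 : t ^ 5 ≤ H := by
        rw [← ht20]
        exact pow_le_pow_right₀ ht1 (by norm_num)
      calc I * (120000000 * (H : ℝ) ^ 3 * t ^ 3) * t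
          ≤ (8 * t) * (120000000 * (H : ℝ) ^ 3 * t ^ 3) * t := by gcongr
        _ = 960000000 * (H : ℝ) ^ 3 * t ^ 5 := by ring
        _ ≤ 960000000 * (H : ℝ) ^ 3 * H := by gcongr
        _ = 960000000 * (H : ℝ) ^ 4 := by ring
        _ ≤ 960000000 * W := by gcongr
        _ ≤ 2000000000 * W := by linarith
    linarith
  have htot : (((box H).filter (bad ε c Q R ξ)).card : ℝ)
      ≤ (((S₁.card : ℕ) : ℝ) + ((S₂.card : ℕ) : ℝ) + ((S₃.card : ℕ) : ℝ) + ((S₄.card : ℕ) : ℝ)) := by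
    have h1 := card_le_card hcover
    have h2 : (((S₁ ∪ S₂) ∪ S₃) ∪ S₄).card ≤ S₁.card + S₂.card + S₃.card + S₄.card :=
      (card_union_le _ _).trans (Nat.add_le_add_right ((card_union_le _ _).trans
        (Nat.add_le_add_right (card_union_le _ _) _)) _)
    exact_mod_cast h1.trans h2
  refine htot.trans ?_
  have hx : 0 ≤ c / Real.log Q ^ ε * W := by positivity
  have hy : 0 ≤ W / t := by positivity
  have e1 : 10 * W / t = 10 * (W / t) := by ring
  have e2 : 15 * W / t = 15 * (W / t) := by ring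
  have e3 : 10000 * W / t = 10000 * (W / t) := by ring
  have e4 : 2000000000 * W / t = 2000000000 * (W / t) := by ring
  rw [e1] at hs1
  rw [e2] at hs2
  rw [e3] at hs3
  rw [e4] at hs4
  have e5 : (1 + 10000 * C₂ + 24000000 * C₁ + 10000000000) * (c / Real.log Q ^ ε + 1 / t) * W
      = (1 + 10000 * C₂ + 24000000 * C₁ + 10000000000) * (c / Real.log Q ^ ε * W)
        + (1 + 10000 * C₂ + 24000000 * C₁ + 10000000000) * (W / t) := by ring
  rw [e5]
  nlinarith [mul_nonneg hC₁.le hy, mul_nonneg hC₂.le hy]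

end Pool.Agent.Helper73.SM
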