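import Mathlib
import Pool.Agent.Helper73.SM.GoalsK

/-!
# Project KR: assembly
-/

set_option autoImplicit false

namespace Pool.Agent.Helper73.SM

open Finset

lemma PK_modEq (k : ℕ) (s : ℤ) (n : ℕ) {a b : ℤ} {m : ℤ} (h : a ≡ b [ZMOD m]) :
    PK k s n a ≡ PK k s n b [ZMOD m] := by
  unfold PK
  refine Int.ModEq.sum ?_
  intro j _
  exact Int.ModEq.mul_left _ ((h.mul_left _).pow _)

lemma dvd_GK_iff (k m n p : ℕ) (N : ℤ) :
    p ∣ GK k m n N ↔ (p : ℤ) ∣ PK k (m : ℤ) n N ∧ (p : ℤ) ∣ PK k (-(m : ℤ)) n N := by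
  unfold GK
  rw [← Int.natCast_dvd_natCast, Int.dvd_coe_gcd_iff]

lemma dvd_PK_mod (k : ℕ) (s : ℤ) (n p N : ℕ) :
    (p : ℤ) ∣ PK k s n (N : ℤ) ↔ (p : ℤ) ∣ PK k s n ((N % p : ℕ) : ℤ) := by
  have h : (N : ℤ) ≡ ((N % p : ℕ) : ℤ) [ZMOD p] := by
    push_cast
    exact (Int.mod_modEq _ _).symm
  exact (PK_modEq k s n h).dvd_iff

lemma GK_dvd_DK (hKDT : StmtKDT) (k m n N : ℕ) (hm : 1 ≤ m) (hmk : m < k) (hN : 1 ≤ N) :
    (GK k m n (N : ℤ) : ℤ) ∣ DK k m n := by
  rw [← hKDT.det k m n N hm hmk hN]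
  have ha : (GK k m n (N : ℤ) : ℤ) ∣ PK k (m : ℤ) n N := Int.gcd_dvd_left _ _
  have hb : (GK k m n (N : ℤ) : ℤ) ∣ PK k (-(m : ℤ)) n N := Int.gcd_dvd_right _ _
  exact dvd_sub (dvd_mul_of_dvd_right hb _) (dvd_mul_of_dvd_left ha _)

/-- the inequality behind the large deviation bound -/
lemma ld_pure (k : ℕ) (hk : 3 ≤ k) (r : ℕ) :
    (1 + 1 / (k : ℝ)) ^ (-((1 / 2) * (1 - 1 / (4 * (k : ℝ))) * (r : ℝ)))
        * (1 + 1 / (k : ℝ) * (((k : ℝ) - 1) / (2 * k))) ^ r
      ≤ Real.exp (-((r : ℝ) / (8 * (k : ℝ) ^ 2))) := by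
  have hk0 : (0 : ℝ) < k := by
    have : 0 < k := by omega
    exact_mod_cast this
  have hk3 : (3 : ℝ) ≤ k := by exact_mod_cast hk
  have hr : (0 : ℝ) ≤ r := by positivity
  have h1 : 2 / (2 * (k : ℝ) + 1) ≤ Real.log (1 + 1 / (k : ℝ)) := by
    have h := Real.le_log_one_add_of_nonneg (x := 1 / (k : ℝ)) (by positivity)
    refine le_trans (le_of_eq ?_) h
    field_simp
    ring
  have h2 : (1 + 1 / (k : ℝ) * (((k : ℝ) - 1) / (2 * k))) ^ r
      ≤ Real.exp (r * (((k : ℝ) - 1) / (2 * (k : ℝ) ^ 2))) := by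
    rw [Real.exp_nat_mul]
    apply pow_le_pow_left₀
    · have : 0 ≤ 1 / (k : ℝ) * (((k : ℝ) - 1) / (2 * k)) := by
        apply mul_nonneg (by positivity)
        apply div_nonneg (by linarith) (by positivity)
      linarith
    · have h := Real.add_one_le_exp (((k : ℝ) - 1) / (2 * (k : ℝ) ^ 2))
      refine le_trans (le_of_eq ?_) h
      field_simp
      ring
  have h3 : (1 + 1 / (k : ℝ)) ^ (-((1 / 2) * (1 - 1 / (4 * (k : ℝ))) * (r : ℝ)))
      ≤ Real.exp (-((4 * (k : ℝ) - 1) / (4 * k * (2 * k + 1)) * r)) := by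
    rw [Real.rpow_def_of_pos (by positivity)]
    apply Real.exp_le_exp.2
    have h4 : 0 ≤ (1 / 2) * (1 - 1 / (4 * (k : ℝ))) * (r : ℝ) := by
      have : 1 / (4 * (k : ℝ)) ≤ 1 := by
        rw [div_le_one (by positivity)]
        linarith
      apply mul_nonneg (mul_nonneg (by norm_num) (by linarith)) hr
    have h5 := mul_le_mul_of_nonneg_right h1 h4
    have h6 : 2 / (2 * (k : ℝ) + 1) * ((1 / 2) * (1 - 1 / (4 * (k : ℝ))) * (r : ℝ))
        = (4 * (k : ℝ) - 1) / (4 * k * (2 * k + 1)) * r := by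
      field_simp
      try ring
    rw [h6] at h5
    linarith
  calc (1 + 1 / (k : ℝ)) ^ (-((1 / 2) * (1 - 1 / (4 * (k : ℝ))) * (r : ℝ)))
        * (1 + 1 / (k : ℝ) * (((k : ℝ) - 1) / (2 * k))) ^ r
      ≤ Real.exp (-((4 * (k : ℝ) - 1) / (4 * k * (2 * k + 1)) * r))
        * Real.exp (r * (((k : ℝ) - 1) / (2 * (k : ℝ) ^ 2))) := by
        apply mul_le_mul h3 h2 _ (by positivity)
        apply pow_nonneg
        have : 0 ≤ 1 / (k : ℝ) * (((k : ℝ) - 1) / (2 * k)) := by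
          apply mul_nonneg (by positivity)
          apply div_nonneg (by linarith) (by positivity)
        linarith
    _ = Real.exp (-((4 * (k : ℝ) - 1) / (4 * k * (2 * k + 1)) * r)
        + r * (((k : ℝ) - 1) / (2 * (k : ℝ) ^ 2))) := by rw [Real.exp_add]
    _ ≤ Real.exp (-((r : ℝ) / (8 * (k : ℝ) ^ 2))) := by
        apply Real.exp_le_exp.2
        have h7 : (1 : ℝ) / (8 * (k : ℝ) ^ 2)
            ≤ (4 * (k : ℝ) - 1) / (4 * k * (2 * k + 1)) - ((k : ℝ) - 1) / (2 * (k : ℝ) ^ 2) := by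
          rw [div_sub_div _ _ (by positivity) (by positivity), div_le_div_iff₀ (by positivity) (by positivity)]
          nlinarith [mul_pos hk0 hk0, mul_pos (mul_pos hk0 hk0) hk0,
            mul_pos (mul_pos hk0 hk0) (mul_pos hk0 hk0)]
        have h8 := mul_le_mul_of_nonneg_left h7 hr
        have h9 : (r : ℝ) / (8 * (k : ℝ) ^ 2) = r * (1 / (8 * (k : ℝ) ^ 2)) := by ring
        rw [h9]
        nlinarith

open Classical in
theorem goalKR (hKDT : StmtKDT) (hKPR : StmtKPR) (hKVL : StmtKVL) (hKKY : StmtKKY) (hKRT : StmtKRT)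
    (hKLD : StmtKLD) (hKAS : StmtKAS) (hKTL : StmtKTL) (hKPP : StmtKPP) : StmtKR := by
  intro k m hk hm hmk hcop
  have hok : Ok k m := ⟨hk, hm, hmk, hcop⟩
  have hk0 : (0 : ℝ) < k := by
    have : 0 < k := by omega
    exact_mod_cast this
  have hk3 : (3 : ℝ) ≤ k := by exact_mod_cast hk
  have hlk : 0 < Real.log k := Real.log_pos (by linarith)
  set K : ℝ := 8 * (k : ℝ) ^ 2 * 4 ^ k with hK
  have h4k : (1 : ℝ) ≤ 4 ^ k := one_le_pow₀ (by norm_num)
  have hK8 : 8 * (k : ℝ) ^ 2 ≤ K := by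
    rw [hK]
    nlinarith [sq_nonneg (k : ℝ)]
  have hK72 : 72 ≤ K := by nlinarith
  have hK0 : 0 < K := by linarith
  have hlK : 0 < Real.log K := Real.log_pos (by linarith)
  obtain ⟨N₁, hN₁2, hN₁⟩ := hKPR k m K hok hK8
  obtain ⟨B, n₀, c₀, hB1, hn₀3, hc₀, hAS⟩ := hKAS k m hok
  set c₁ : ℝ := c₀ / (8 * (k : ℝ) ^ 2) with hc₁
  have hc₁0 : 0 < c₁ := by positivity
  set c₃ : ℝ := 1 / (8 * Real.log k) with hc₃
  have hc₃0 : 0 < c₃ := by positivity
  obtain ⟨C₂, c₂, T₂, hC₂, hc₂, hT₂, hTL⟩ := hKTL c₁ c₃ hc₁0 hc₃0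
  set T₀ : ℝ := max (max T₂ (2 * K)) (max ((4 * K * (k : ℝ) ^ 2) ^ 2) (Real.exp (n₀ / c₃))) with hT₀
  have hT₀a : T₂ ≤ T₀ := (le_max_left _ _).trans (le_max_left _ _)
  have hT₀b : 2 * K ≤ T₀ := (le_max_right _ _).trans (le_max_left _ _)
  have hT₀c : (4 * K * (k : ℝ) ^ 2) ^ 2 ≤ T₀ := (le_max_left _ _).trans (le_max_right _ _)
  have hT₀d : Real.exp (n₀ / c₃) ≤ T₀ := (le_max_right _ _).trans (le_max_right _ _)
  have hT₀3 : 3 ≤ T₀ := hT₂.trans hT₀a
  have hll3 : 0 < Real.log (Real.log 3) := by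
    apply Real.log_pos
    rw [Real.lt_log_iff_exp_lt (by norm_num)]
    have := Real.exp_one_lt_d9
    linarith
  set C : ℝ := max (2 * C₂) (Real.exp (c₂ * (Real.log T₀ / Real.log (Real.log 3)))) with hC
  refine ⟨1 / (4 * Real.log K), C, c₂, max (max N₁ ⌈4 * K⌉₊) (2 * 16 ^ k), by positivity, ?_, hc₂, ?_⟩
  · exact lt_of_lt_of_le (by positivity) (le_max_left _ _)
  intro X hX T hT
  have hX1 : N₁ ≤ X := ((le_max_left _ _).trans (le_max_left _ _)).trans hX
  have hX2 : ⌈4 * K⌉₊ ≤ X := ((le_max_right _ _).trans (le_max_left _ _)).trans hX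
  have hX3 : 2 * 16 ^ k ≤ X := (le_max_right _ _).trans hX
  have hX4 : 4 * K ≤ X := (Nat.le_ceil _).trans (by exact_mod_cast hX2)
  have hX0 : (0 : ℝ) < X := by linarith
  have hlogT : Real.log 3 ≤ Real.log T := Real.log_le_log (by norm_num) hT
  have hlog3 : 0 < Real.log 3 := Real.log_pos (by norm_num)
  have hll : Real.log (Real.log 3) ≤ Real.log (Real.log T) := Real.log_le_log hlog3 hlogT
  by_cases hTT : T < T₀
  · -- trivial bound
    have h1 : (({N : ℕ | X < N ∧ N ≤ 2 * X ∧ ∃ (p : ℤ) (q : ℕ), 1 ≤ q ∧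
        (q : ℝ) ≤ Real.exp (1 / (4 * Real.log K) * Real.log N ^ 2) ∧
        |(1 + 1 / (N : ℝ)) ^ ((m : ℝ) / (k : ℝ)) - (p : ℝ) / (q : ℝ)| < 1 / (T * N * (q : ℝ) ^ 2)}).ncard : ℝ)
        ≤ X := by
      have h2 : {N : ℕ | X < N ∧ N ≤ 2 * X ∧ ∃ (p : ℤ) (q : ℕ), 1 ≤ q ∧
        (q : ℝ) ≤ Real.exp (1 / (4 * Real.log K) * Real.log N ^ 2) ∧
        |(1 + 1 / (N : ℝ)) ^ ((m : ℝ) / (k : ℝ)) - (p : ℝ) / (q : ℝ)| < 1 / (T * N * (q : ℝ) ^ 2)}
          ⊆ ((Ioc X (2 * X) : Finset ℕ) : Set ℕ) := by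
        rintro N ⟨hN1, hN2, -⟩
        rw [Finset.mem_coe, mem_Ioc]
        exact ⟨hN1, hN2⟩
      have h3 := Set.ncard_le_ncard h2 (Finset.finite_toSet _)
      rw [Set.ncard_coe_finset, Nat.card_Ioc] at h3
      have h4 : 2 * X - X = X := by omega
      rw [h4] at h3
      exact_mod_cast h3
    refine h1.trans ?_
    have h5 : Real.log T / Real.log (Real.log T) ≤ Real.log T₀ / Real.log (Real.log 3) := by
      exact div_le_div₀ (Real.log_nonneg (by linarith)) (Real.log_le_log (by linarith) hTT.le) hll3 hll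
    have h6 : 1 ≤ C * Real.exp (-(c₂ * (Real.log T / Real.log (Real.log T)))) := by
      have h7 : Real.exp (c₂ * (Real.log T₀ / Real.log (Real.log 3))) ≤ C := le_max_right _ _
      calc (1 : ℝ) ≤ Real.exp (c₂ * (Real.log T₀ / Real.log (Real.log 3)))
            * Real.exp (-(c₂ * (Real.log T / Real.log (Real.log T)))) := by
            rw [← Real.exp_add]
            apply Real.one_le_exp
            nlinarith
        _ ≤ C * Real.exp (-(c₂ * (Real.log T / Real.log (Real.log T)))) := by gcongr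
    calc (X : ℝ) = X * 1 := by ring
      _ ≤ X * (C * Real.exp (-(c₂ * (Real.log T / Real.log (Real.log T))))) := by gcongr
      _ = C * X * Real.exp (-(c₂ * (Real.log T / Real.log (Real.log T)))) := by ring
  push Not at hTT
  have hTpos : 0 < T := by linarith
  have hT2K : 2 * K ≤ T := hT₀b.trans hTT
  -- the sets
  set E : ℕ → ℕ → ℕ → Prop := fun n p N =>
    (p : ℤ) ∣ PK k (m : ℤ) n N ∧ (p : ℤ) ∣ PK k (-(m : ℤ)) n N with hE
  set u : ℕ → ℝ := fun n => (1 / 2) * (1 - 1 / (4 * (k : ℝ))) * ((RK k m n (n / B)).card : ℝ) with hu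
  set NS : Finset ℕ := (range (2 * X + 1)).filter
    (fun n : ℕ => c₃ * Real.log T ≤ (n : ℝ) ∧ K ^ (2 * n) ≤ 2 * X) with hNS
  set Bd : ℕ → Finset ℕ := fun n => (Ioc X (2 * X)).filter
    (fun N => u n ≤ (((RK k m n (n / B)).filter (fun p => E n p N)).card : ℝ)) with hBd
  have hnlarge : ∀ n : ℕ, c₃ * Real.log T ≤ (n : ℝ) → n₀ ≤ n := by
    intro n hn
    have h1 : (n₀ : ℝ) / c₃ ≤ Real.log T := by
      rw [Real.le_log_iff_exp_le hTpos]
      exact hT₀d.trans hTT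
    have h2 : (n₀ : ℝ) ≤ c₃ * Real.log T := by
      rw [div_le_iff₀ hc₃0] at h1
      linarith
    exact_mod_cast h2.trans hn
  have hsub : {N : ℕ | X < N ∧ N ≤ 2 * X ∧ ∃ (p : ℤ) (q : ℕ), 1 ≤ q ∧
        (q : ℝ) ≤ Real.exp (1 / (4 * Real.log K) * Real.log N ^ 2) ∧
        |(1 + 1 / (N : ℝ)) ^ ((m : ℝ) / (k : ℝ)) - (p : ℝ) / (q : ℝ)| < 1 / (T * N * (q : ℝ) ^ 2)} ⊆
      ((NS.biUnion Bd : Finset ℕ) : Set ℕ) := by
    rintro N ⟨hN1, hN2, p, q, hq1, hq2, hpq⟩
    have hN0 : (0 : ℝ) < N := by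
      have : 0 < N := by omega
      exact_mod_cast this
    have hXN : (X : ℝ) ≤ N := by exact_mod_cast hN1.le
    -- reduce the fraction
    obtain ⟨P, R, hcopPR, hR1, hRq, hfrac⟩ : ∃ (P : ℤ) (R : ℕ), IsCoprime P (R : ℤ) ∧ 1 ≤ R ∧ R ≤ q ∧
        (p : ℝ) / (q : ℝ) = (P : ℝ) / (R : ℝ) := by
      have hq0 : (q : ℤ) ≠ 0 := by omega
      refine ⟨(Rat.divInt p q).num, (Rat.divInt p q).den, ?_, (Rat.divInt p q).pos, ?_, ?_⟩
      · rw [Int.isCoprime_iff_gcd_eq_one]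
        have := (Rat.divInt p q).reduced
        simpa [Int.gcd] using this
      · have h1 : (((Rat.divInt p q).den : ℕ) : ℤ) ∣ (q : ℤ) := Rat.den_dvd p q
        exact Nat.le_of_dvd (by omega) (Int.natCast_dvd_natCast.1 h1)
      · have h1 : ((Rat.divInt p q : ℚ) : ℝ) = (p : ℝ) / (q : ℝ) := by
          rw [Rat.divInt_eq_div]
          push_cast
          ring
        rw [← h1, Rat.cast_def]
    have hR0 : (0 : ℝ) < R := by exact_mod_cast hR1
    have hq0 : (0 : ℝ) < q := by exact_mod_cast hq1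
    have hRqR : (R : ℝ) ≤ q := by exact_mod_cast hRq
    have hval : (R : ℝ) * |(P : ℝ) - xk k m N * R| < 1 / T / N := by
      rw [hfrac] at hpq
      have h1 : (P : ℝ) - xk k m N * R = -(R * (xk k m N - (P : ℝ) / (R : ℝ))) := by
        field_simp
        ring
      have h2 : (R : ℝ) * |(P : ℝ) - xk k m N * R| = (R : ℝ) ^ 2 * |xk k m N - (P : ℝ) / (R : ℝ)| := by
        rw [h1, abs_neg, abs_mul, abs_of_pos hR0]
        ring
      rw [h2]
      have h3 : |xk k m N - (P : ℝ) / (R : ℝ)| < 1 / (T * N * (q : ℝ) ^ 2) := hpq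
      calc (R : ℝ) ^ 2 * |xk k m N - (P : ℝ) / (R : ℝ)|
          ≤ (q : ℝ) ^ 2 * |xk k m N - (P : ℝ) / (R : ℝ)| := by gcongr
        _ < (q : ℝ) ^ 2 * (1 / (T * N * (q : ℝ) ^ 2)) := by gcongr
        _ = 1 / T / N := by field_simp
    have hRexp : (R : ℝ) ≤ Real.exp (Real.log N ^ 2 / (4 * Real.log K)) := by
      refine hRqR.trans (hq2.trans (le_of_eq ?_))
      congr 1
      ring
    have hT16 : 1 / T ≤ 1 / 16 := one_div_le_one_div_of_le (by norm_num) (by linarith)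
    obtain ⟨n, hnK, hPn⟩ := hN₁ N (by omega) (1 / T) P R (by positivity) hT16 hR1 hRexp hval
    have hv := hKVL k m K hok hK8 N n P R (hX4.trans hXN) hnK hR1 hcopPR hPn
    have hGdvd := GK_dvd_DK hKDT k m n N hm hmk (by omega)
    have hDpos := hKDT.pos k m n hm hmk
    have hG0 : 1 ≤ GK k m n (N : ℤ) := by
      by_contra h0
      have h1 : GK k m n (N : ℤ) = 0 := by omega
      rw [h1] at hGdvd
      simp at hGdvd
      omega
    have hGle : (GK k m n (N : ℤ) : ℝ) ≤ (DK k m n : ℝ) := by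
      exact_mod_cast Int.le_of_dvd (by omega) hGdvd
    have hGpos : (0 : ℝ) < (GK k m n (N : ℤ) : ℝ) := by exact_mod_cast hG0
    have hDR : (1 : ℝ) ≤ (DK k m n : ℝ) := by exact_mod_cast hDpos
    have hlt : T * (DK k m n : ℝ) < 2 * K * (GK k m n (N : ℤ) : ℝ) ^ 2 := by
      have h1 := lt_of_le_of_lt hv hval
      rw [div_lt_div_iff₀ (by positivity) (by positivity)] at h1
      have h3 : 1 / T * (2 * K * N * (GK k m n (N : ℤ) : ℝ) ^ 2)
          = N * (2 * K * (GK k m n (N : ℤ) : ℝ) ^ 2 / T) := by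
        field_simp
      rw [h3, mul_comm] at h1
      have h4 := lt_of_mul_lt_mul_left h1 hN0.le
      rw [lt_div_iff₀ hTpos] at h4
      linarith
    have hDlt : DK k m n < (GK k m n (N : ℤ) : ℤ) ^ 2 := by
      have h1 : 2 * K * (DK k m n : ℝ) < 2 * K * (GK k m n (N : ℤ) : ℝ) ^ 2 :=
        lt_of_le_of_lt (mul_le_mul_of_nonneg_right hT2K (by linarith)) hlt
      have h2 := lt_of_mul_lt_mul_left h1 (by linarith)
      exact_mod_cast h2
    have hnT : c₃ * Real.log T ≤ (n : ℝ) := by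
      have h1 : T < 2 * K * (DK k m n : ℝ) := by
        have h2 : T * (DK k m n : ℝ) < 2 * K * (DK k m n : ℝ) * (DK k m n : ℝ) := by
          refine lt_of_lt_of_le hlt ?_
          have : (GK k m n (N : ℤ) : ℝ) ^ 2 ≤ (DK k m n : ℝ) * (DK k m n : ℝ) := by
            rw [sq]
            exact mul_le_mul hGle hGle hGpos.le (by linarith)
          calc 2 * K * (GK k m n (N : ℤ) : ℝ) ^ 2
              ≤ 2 * K * ((DK k m n : ℝ) * (DK k m n : ℝ)) := by gcongr
            _ = 2 * K * (DK k m n : ℝ) * (DK k m n : ℝ) := by ring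
        exact lt_of_mul_lt_mul_right h2 (by linarith)
      have h3 := hKDT.le k m n hm hmk
      have h4 : T < 4 * K * (k : ℝ) ^ 2 * (k : ℝ) ^ (4 * n) := by
        calc T < 2 * K * (DK k m n : ℝ) := h1
          _ ≤ 2 * K * (2 * (k : ℝ) ^ 2 * (k : ℝ) ^ (4 * n)) := by gcongr
          _ = 4 * K * (k : ℝ) ^ 2 * (k : ℝ) ^ (4 * n) := by ring
      have h5 : Real.log T < Real.log (4 * K * (k : ℝ) ^ 2) + 4 * n * Real.log k := by
        have h6 := Real.log_lt_log hTpos h4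
        rw [Real.log_mul (by positivity) (by positivity), Real.log_pow] at h6
        push_cast at h6
        exact h6
      have h7 : 2 * Real.log (4 * K * (k : ℝ) ^ 2) ≤ Real.log T := by
        have h8 := Real.log_le_log (by positivity) (hT₀c.trans hTT)
        rw [Real.log_pow] at h8
        push_cast at h8
        exact h8
      rw [hc₃, div_mul_eq_mul_div, div_le_iff₀ (by positivity)]
      nlinarith
    have hn0 := hnlarge n hnT
    obtain ⟨⟨hM1, hM2⟩, -, hQ, -⟩ := hAS n hn0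
    have hkey := hKKY k m n N (n / B) hok (by omega) hM1 hM2 hDlt
    have hu' := hQ _ (filter_subset _ _) hkey
    have hN2R : (N : ℝ) ≤ 2 * X := by exact_mod_cast hN2
    rw [Finset.mem_coe, mem_biUnion]
    refine ⟨n, ?_, ?_⟩
    · rw [hNS, mem_filter, mem_range]
      refine ⟨?_, hnT, hnK.trans hN2R⟩
      have h1 : (n : ℝ) < 2 * X + 1 := by
        have h2 : (n : ℝ) < (2 : ℝ) ^ n := by exact_mod_cast n.lt_two_pow_self
        have h3 : (2 : ℝ) ^ n ≤ K ^ (2 * n) := by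
          rw [pow_mul]
          exact pow_le_pow_left₀ (by norm_num) (by nlinarith) n
        linarith [hnK.trans hN2R]
      exact_mod_cast h1
    · rw [hBd]
      simp only
      rw [mem_filter, mem_Ioc]
      refine ⟨⟨hN1, hN2⟩, ?_⟩
      have hQeq : (RK k m n (n / B)).filter (fun p => p ∣ GK k m n (N : ℤ))
          = (RK k m n (n / B)).filter (fun p => E n p N) := by
        ext p
        simp only [mem_filter, dvd_GK_iff, hE]
      rw [← hQeq]
      exact hu'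
  -- counting
  have hBn : ∀ n ∈ NS, ((Bd n).card : ℝ) ≤ 2 * X * Real.exp (-(c₁ * (n / Real.log n))) := by
    intro n hn
    rw [hNS, mem_filter, mem_range] at hn
    obtain ⟨hnX, hnT, hnK⟩ := hn
    have hn0 := hnlarge n hnT
    obtain ⟨⟨hM1, hM2⟩, hr, -, ha⟩ := hAS n hn0
    have h := hKLD X (RK k m n (n / B)) (E n) (((k : ℝ) - 1) / (2 * k)) (1 / k) (u n) ?_ (by positivity)
      ?_ ?_ ?_ ?_
    · have h1 := ld_pure k hk (RK k m n (n / B)).card
      have h2 : Real.exp (-(((RK k m n (n / B)).card : ℝ) / (8 * (k : ℝ) ^ 2)))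
          ≤ Real.exp (-(c₁ * (n / Real.log n))) := by
        apply Real.exp_le_exp.2
        have h3 : c₁ * (n / Real.log n) = (c₀ * (n / Real.log n)) / (8 * (k : ℝ) ^ 2) := by
          rw [hc₁]
          ring
        rw [h3]
        apply neg_le_neg
        gcongr
      have h4 : ((Bd n).card : ℝ) ≤ 2 * X * ((1 + 1 / (k : ℝ)) ^ (-(u n))
          * (1 + 1 / (k : ℝ) * (((k : ℝ) - 1) / (2 * k))) ^ (RK k m n (n / B)).card) := by
        refine le_trans (le_of_eq ?_) h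
        have h5 : ∀ s t : Finset ℕ, s = t → (s.card : ℝ) = (t.card : ℝ) := by
          intro s t hst
          rw [hst]
        apply h5
        ext N
        simp only [hBd, mem_filter]
        constructor <;> (rintro ⟨a, b⟩; refine ⟨a, ?_⟩; convert b)
      refine h4.trans ?_
      apply mul_le_mul_of_nonneg_left _ (by positivity)
      exact h1.trans h2
    · exact div_nonneg (by linarith) (by positivity)
    · intro p hp
      rw [RK, mem_filter] at hp
      exact hp.2.1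
    · refine hKPP k m n (n / B) (2 * X) X (by omega) le_rfl hX3 ?_
      push_cast
      exact hnK
    · intro p _ N
      simp only [hE]
      rw [dvd_PK_mod k (m : ℤ) n p N, dvd_PK_mod k (-(m : ℤ)) n p N]
    · intro p hp
      have hp' := hp
      rw [RK, mem_filter, mem_Ioc] at hp'
      obtain ⟨⟨hpM, hpk⟩, hpp, hpn, l, hl, hl1, hl2⟩ := hp'
      have h2k : 2 * k < p := by omega
      have hsq : k * n + k < p ^ 2 := by
        have h1 : (n / B + 1) ^ 2 ≤ p ^ 2 := Nat.pow_le_pow_left (by omega) 2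
        omega
      have hrt := hKRT k m n p l hok hpp h2k hsq hl hl1 hl2
      have h1 := ha p hp _ hrt
      refine le_trans (le_of_eq ?_) h1
      congr 2
      ext a
      simp only [mem_filter, hE]
  have hcard : ((NS.biUnion Bd).card : ℝ)
      ≤ C * X * Real.exp (-(c₂ * (Real.log T / Real.log (Real.log T)))) := by
    have h1 : ((NS.biUnion Bd).card : ℝ) ≤ ∑ n ∈ NS, ((Bd n).card : ℝ) := by
      rw [← Nat.cast_sum]
      exact Nat.cast_le.2 card_biUnion_le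
    have h2 : ∑ n ∈ NS, ((Bd n).card : ℝ)
        ≤ ∑ n ∈ NS, 2 * X * Real.exp (-(c₁ * (n / Real.log n))) := sum_le_sum hBn
    have h3 : ∑ n ∈ NS, 2 * X * Real.exp (-(c₁ * (n / Real.log n)))
        ≤ ∑ n ∈ (range (2 * X + 1)).filter (fun n : ℕ => c₃ * Real.log T ≤ (n : ℝ)),
          2 * X * Real.exp (-(c₁ * (n / Real.log n))) := by
      apply sum_le_sum_of_subset_of_nonneg
      · intro n hn
        rw [hNS, mem_filter] at hn
        rw [mem_filter]
        exact ⟨hn.1, hn.2.1⟩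
      · intro n _ _
        positivity
    have h4 := hTL T (hT₀a.trans hTT) (2 * X + 1)
    have h5 : 2 * C₂ ≤ C := le_max_left _ _
    calc ((NS.biUnion Bd).card : ℝ)
        ≤ ∑ n ∈ (range (2 * X + 1)).filter (fun n : ℕ => c₃ * Real.log T ≤ (n : ℝ)),
          2 * X * Real.exp (-(c₁ * (n / Real.log n))) := h1.trans (h2.trans h3)
      _ = 2 * X * ∑ n ∈ (range (2 * X + 1)).filter (fun n : ℕ => c₃ * Real.log T ≤ (n : ℝ)),
          Real.exp (-(c₁ * (n / Real.log n))) := by rw [mul_sum]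
      _ ≤ 2 * X * (C₂ * Real.exp (-(c₂ * (Real.log T / Real.log (Real.log T))))) := by gcongr
      _ = (2 * C₂) * X * Real.exp (-(c₂ * (Real.log T / Real.log (Real.log T)))) := by ring
      _ ≤ C * X * Real.exp (-(c₂ * (Real.log T / Real.log (Real.log T)))) := by gcongr
  refine le_trans ?_ hcard
  rw [← Set.ncard_coe_finset]
  exact_mod_cast Set.ncard_le_ncard hsub (Finset.finite_toSet _)

end Pool.Agent.Helper73.SM
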