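import Mathlib
import Pool.Agent.Helper73.SM.GoalsU

/-!
# Project CU: assembly
-/

set_option autoImplicit false

namespace Pool.Agent.Helper73.SM

open Finset

lemma PZ_modEq (s : ℤ) (n : ℕ) {a b : ℤ} {m : ℤ} (h : a ≡ b [ZMOD m]) :
    PZ s n a ≡ PZ s n b [ZMOD m] := by
  unfold PZ
  refine Int.ModEq.sum ?_
  intro j _
  exact Int.ModEq.mul_left _ ((h.mul_left 9).pow _)

lemma dvd_GG_iff (n p : ℕ) (N : ℤ) : p ∣ GG n N ↔ (p : ℤ) ∣ PZ 1 n N ∧ (p : ℤ) ∣ PZ (-1) n N := by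
  unfold GG
  rw [← Int.natCast_dvd_natCast, Int.dvd_coe_gcd_iff]

lemma dvd_PZ_mod (s : ℤ) (n p N : ℕ) : (p : ℤ) ∣ PZ s n (N : ℤ) ↔ (p : ℤ) ∣ PZ s n ((N % p : ℕ) : ℤ) := by
  have h : (N : ℤ) ≡ ((N % p : ℕ) : ℤ) [ZMOD p] := by
    push_cast
    exact (Int.mod_modEq _ _).symm
  exact (PZ_modEq s n h).dvd_iff

lemma GG_le_DD (hUDT : StmtUDT) (n N : ℕ) (hN : 1 ≤ N) : (GG n (N : ℤ) : ℤ) ≤ DD n := by
  have h1 : (GG n (N : ℤ) : ℤ) ∣ DD n := by
    rw [← hUDT.det n N hN]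
    have ha : (GG n (N : ℤ) : ℤ) ∣ PZ 1 n N := Int.gcd_dvd_left _ _
    have hb : (GG n (N : ℤ) : ℤ) ∣ PZ (-1) n N := Int.gcd_dvd_right _ _
    exact dvd_sub (dvd_mul_of_dvd_right hb _) (dvd_mul_of_dvd_left ha _)
  exact Int.le_of_dvd (by have := hUDT.pos n; omega) h1

open Classical in
theorem goalU (hUDT : StmtUDT) (hUPR : StmtUPR) (hUVL : StmtUVL) (hUKY : StmtUKY) (hURT : StmtURT)
    (hULD : StmtULD) (hUAS : StmtUAS) (hUSM : StmtUSM) : StmtU := by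
  intro δ hδ
  obtain ⟨n₀, hn₀2, hn₀⟩ := hUAS
  obtain ⟨n₁', hn₁'2, hn₁'⟩ := hUSM.tail (δ / 2) (by positivity)
  obtain ⟨N₁, hN₁2, hN₁⟩ := hUPR
  set n₁ : ℕ := max n₀ n₁' with hn₁
  have hn₁2 : 2 ≤ n₁ := hn₀2.trans (le_max_left _ _)
  set T : ℝ := 6 * 81 ^ n₁ with hT
  have hTpos : 0 < T := by positivity
  have hT1 : 6 ≤ T := by
    have : (1 : ℝ) ≤ 81 ^ n₁ := one_le_pow₀ (by norm_num)
    linarith
  set c : ℝ := 1 / (144 * T) with hc
  have hcpos : 0 < c := by positivity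
  have hc16 : c ≤ 1 / 16 := by
    rw [hc]
    apply one_div_le_one_div_of_le (by norm_num)
    linarith
  refine ⟨c, max (max N₁ 1000) 32, hcpos, ?_⟩
  intro X hX
  have hX1 : N₁ ≤ X := le_trans (le_trans (le_max_left _ _) (le_max_left _ _)) hX
  have hX2 : 1000 ≤ X := le_trans (le_trans (le_max_right _ _) (le_max_left _ _)) hX
  have hX3 : 32 ≤ X := le_trans (le_max_right _ _) hX
  -- the numbers W
  set W : ℕ → ℝ := fun n => (3 ^ ((n + 2) / 2) * (∏ p ∈ PC n, (p : ℝ)) * ∏ p ∈ PP n, (p : ℝ))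
    / Real.sqrt (DD n : ℝ) with hW
  set NS : Finset ℕ := (Ico n₁ (2 * X + 1)).filter (fun n : ℕ => (72 : ℝ) ^ (2 * n) ≤ 2 * X) with hNS
  set B : ℕ → Finset ℕ := fun n => (Ioc X (2 * X)).filter
    (fun N => W n < ∏ p ∈ (PP n).filter (fun p => p ∣ GG n (N : ℤ)), (p : ℝ)) with hB
  have hsub : {N : ℕ | X < N ∧ N ≤ 2 * X ∧ ∃ (p : ℤ) (q : ℕ), 1 ≤ q ∧
      (q : ℝ) ≤ Real.exp (Real.log N ^ 2 / 10) ∧
      |(1 + 1 / (N : ℝ)) ^ (1 / (3 : ℝ)) - (p : ℝ) / (q : ℝ)| < c / (N * (q : ℝ) ^ 2)} ⊆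
      ((NS.biUnion B : Finset ℕ) : Set ℕ) := by
    rintro N ⟨hN1, hN2, p, q, hq1, hq2, hpq⟩
    have hN0 : (0 : ℝ) < N := by
      have : 0 < N := by omega
      exact_mod_cast this
    -- reduce the fraction
    obtain ⟨P, R, hcop, hR1, hRq, hfrac⟩ : ∃ (P : ℤ) (R : ℕ), IsCoprime P (R : ℤ) ∧ 1 ≤ R ∧ R ≤ q ∧
        (p : ℝ) / (q : ℝ) = (P : ℝ) / (R : ℝ) := by
      have hq0 : (q : ℤ) ≠ 0 := by omega
      refine ⟨(Rat.divInt p q).num, (Rat.divInt p q).den, ?_, (Rat.divInt p q).pos, ?_, ?_⟩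
      · rw [Int.isCoprime_iff_gcd_eq_one]
        have := (Rat.divInt p q).reduced
        simpa [Int.gcd] using this
      · have h1 : (((Rat.divInt p q).den : ℕ) : ℤ) ∣ (q : ℤ) := Rat.den_dvd p q
        exact Nat.le_of_dvd (by omega) (Int.natCast_dvd_natCast.1 h1)
      · have h1 : ((Rat.divInt p q : ℚ) : ℝ) = (p : ℝ) / (q : ℝ) := by
          rw [Rat.divInt_eq_div]
          push_cast
          ring
        rw [← h1, Rat.cast_def]
    have hR0 : (0 : ℝ) < R := by exact_mod_cast hR1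
    have hq0 : (0 : ℝ) < q := by exact_mod_cast hq1
    have hRqR : (R : ℝ) ≤ q := by exact_mod_cast hRq
    have hval : (R : ℝ) * |(P : ℝ) - xi N * R| < c / N := by
      rw [hfrac] at hpq
      have h1 : (P : ℝ) - xi N * R = -(R * (xi N - (P : ℝ) / (R : ℝ))) := by
        field_simp
        ring
      have h2 : (R : ℝ) * |(P : ℝ) - xi N * R| = (R : ℝ) ^ 2 * |xi N - (P : ℝ) / (R : ℝ)| := by
        rw [h1, abs_neg, abs_mul, abs_of_pos hR0]
        ring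
      rw [h2]
      have h3 : |xi N - (P : ℝ) / (R : ℝ)| < c / (N * (q : ℝ) ^ 2) := hpq
      calc (R : ℝ) ^ 2 * |xi N - (P : ℝ) / (R : ℝ)|
          ≤ (q : ℝ) ^ 2 * |xi N - (P : ℝ) / (R : ℝ)| := by gcongr
        _ < (q : ℝ) ^ 2 * (c / (N * (q : ℝ) ^ 2)) := by gcongr
        _ = c / N := by field_simp
    have hRexp : (R : ℝ) ≤ Real.exp (Real.log N ^ 2 / 10) := hRqR.trans hq2
    obtain ⟨n, hn72, hPn⟩ := hN₁ N (by omega) c P R hcpos hc16 hR1 hRexp hval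
    have hv := hUVL N n P R (by omega) hn72 hR1 hcop hPn
    have hG0 : 1 ≤ GG n (N : ℤ) := by
      by_contra h0
      have h1 : GG n (N : ℤ) = 0 := by omega
      have h2 : (GG n (N : ℤ) : ℤ) ∣ DD n := by
        rw [← hUDT.det n N (by omega)]
        have ha : (GG n (N : ℤ) : ℤ) ∣ PZ 1 n N := Int.gcd_dvd_left _ _
        have hb : (GG n (N : ℤ) : ℤ) ∣ PZ (-1) n N := Int.gcd_dvd_right _ _
        exact dvd_sub (dvd_mul_of_dvd_right hb _) (dvd_mul_of_dvd_left ha _)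
      rw [h1] at h2
      have := hUDT.pos n
      simp at h2
      omega
    have hGpos : (0 : ℝ) < (GG n (N : ℤ) : ℝ) := by exact_mod_cast hG0
    have hlt : T * (DD n : ℝ) < (GG n (N : ℤ) : ℝ) ^ 2 := by
      have h1 := lt_of_le_of_lt hv hval
      rw [hc, div_lt_div_iff₀ (by positivity) (by positivity)] at h1
      have h2 : (DD n : ℝ) * N < 1 / (144 * T) * (144 * N * (GG n (N : ℤ) : ℝ) ^ 2) := h1
      have h3 : 1 / (144 * T) * (144 * N * (GG n (N : ℤ) : ℝ) ^ 2)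
          = N * ((GG n (N : ℤ) : ℝ) ^ 2 / T) := by
        field_simp
      rw [h3, mul_comm] at h2
      have h4 := lt_of_mul_lt_mul_left h2 hN0.le
      rw [lt_div_iff₀ hTpos] at h4
      linarith
    have hDD1 : (1 : ℝ) ≤ (DD n : ℝ) := by exact_mod_cast hUDT.pos n
    have hDlt : DD n < (GG n (N : ℤ) : ℤ) ^ 2 := by
      have h1 : (DD n : ℝ) < (GG n (N : ℤ) : ℝ) ^ 2 := by nlinarith
      exact_mod_cast h1
    have hn1n : n₁ ≤ n := by
      by_contra hlt'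
      push Not at hlt'
      have h1 : (GG n (N : ℤ) : ℝ) ≤ (DD n : ℝ) := by
        exact_mod_cast GG_le_DD hUDT n N (by omega)
      have h2 : (DD n : ℝ) ≤ T := by
        refine (hUDT.le n).trans ?_
        rw [hT]
        have : (81 : ℝ) ^ n ≤ 81 ^ n₁ := pow_le_pow_right₀ (by norm_num) hlt'.le
        linarith
      have h3 : (GG n (N : ℤ) : ℝ) ^ 2 ≤ T * (DD n : ℝ) := by
        calc (GG n (N : ℤ) : ℝ) ^ 2 ≤ (DD n : ℝ) ^ 2 := by gcongr
          _ = (DD n : ℝ) * (DD n : ℝ) := by ring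
          _ ≤ T * (DD n : ℝ) := by gcongr
      linarith
    have hn2 : 2 ≤ n := hn₁2.trans hn1n
    have hkey := hUKY n N hn2 (by omega) hDlt
    have hN2R : (N : ℝ) ≤ 2 * X := by exact_mod_cast hN2
    rw [Finset.mem_coe, mem_biUnion]
    refine ⟨n, ?_, ?_⟩
    · rw [hNS, mem_filter, mem_Ico]
      refine ⟨⟨hn1n, ?_⟩, hn72.trans hN2R⟩
      have h1 : (n : ℝ) < 2 * X + 1 := by
        have h2 : (n : ℝ) < (2 : ℝ) ^ n := by exact_mod_cast n.lt_two_pow_self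
        have h3 : (2 : ℝ) ^ n ≤ 72 ^ (2 * n) := by
          rw [pow_mul]
          exact pow_le_pow_left₀ (by norm_num) (by norm_num) n
        linarith [hn72.trans hN2R]
      exact_mod_cast h1
    · rw [hB]
      simp only
      rw [mem_filter, mem_Ioc]
      refine ⟨⟨hN1, hN2⟩, ?_⟩
      rw [hW]
      simp only
      have hsq : 0 < Real.sqrt (DD n : ℝ) := Real.sqrt_pos.2 (by linarith)
      rw [div_lt_iff₀ hsq]
      have hkeyR : (3 ^ ((n + 2) / 2) * (∏ p ∈ PC n, (p : ℝ)) * ∏ p ∈ PP n, (p : ℝ)) ^ 2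
          < (DD n : ℝ) * (∏ p ∈ (PP n).filter (fun p => p ∣ GG n (N : ℤ)), (p : ℝ)) ^ 2 := by
        have h0 := (Int.cast_lt (R := ℝ)).2 hkey
        push_cast at h0
        exact h0
      have h1 : (DD n : ℝ) * (∏ p ∈ (PP n).filter (fun p => p ∣ GG n (N : ℤ)), (p : ℝ)) ^ 2
          = ((∏ p ∈ (PP n).filter (fun p => p ∣ GG n (N : ℤ)), (p : ℝ)) * Real.sqrt (DD n : ℝ)) ^ 2 := by
        rw [mul_pow, Real.sq_sqrt (by linarith)]
        ring
      rw [h1] at hkeyR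
      exact lt_of_pow_lt_pow_left₀ 2 (by positivity) hkeyR
  -- counting
  have hBn : ∀ n ∈ NS, ((B n).card : ℝ) ≤ 2 * X * Real.exp (-((n : ℝ) / (100 * Real.log n))) := by
    intro n hn
    rw [hNS, mem_filter, mem_Ico] at hn
    have hn0 : n₀ ≤ n := (le_max_left _ _).trans hn.1.1
    have hn2 : 2 ≤ n := hn₀2.trans hn0
    obtain ⟨hW1, hW2⟩ := hn₀ n hn0 (W n) rfl
    have h := hULD X (3 * n + 1) (PP n) (fun p N => p ∣ GG n (N : ℤ)) (W n) (by omega) ?_ ?_ ?_ ?_ hW1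
    · have h' : ((B n).card : ℝ) ≤ 2 * X * (3 / 2 : ℝ) ^ (-(Real.log (W n) / Real.log ((3 * n + 1 : ℕ) : ℝ)))
          * ∏ p ∈ PP n, (1 + ((p : ℝ) + 2) / (12 * p)) := by
        convert h using 3
        simp only [hB]
        congr!
      refine h'.trans ?_
      rw [mul_assoc]
      gcongr
    · intro p hp
      rw [PP, mem_filter, mem_Ioc] at hp
      exact ⟨hp.2, hp.1.2⟩
    · refine hUSM.prim X (2 * X) n hX3 le_rfl ?_
      push_cast
      exact hn.2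
    · intro p _ N
      simp only [dvd_GG_iff]
      rw [dvd_PZ_mod 1 n p N, dvd_PZ_mod (-1) n p N]
    · intro p hp
      have := hURT n p hn2 hp
      simpa only [dvd_GG_iff] using this
  have hcard : ((NS.biUnion B).card : ℝ) ≤ δ * X := by
    have h1 : ((NS.biUnion B).card : ℝ) ≤ ∑ n ∈ NS, ((B n).card : ℝ) := by
      rw [← Nat.cast_sum]
      exact Nat.cast_le.2 card_biUnion_le
    have h2 : ∑ n ∈ NS, ((B n).card : ℝ)
        ≤ ∑ n ∈ NS, 2 * X * Real.exp (-((n : ℝ) / (100 * Real.log n))) := sum_le_sum hBn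
    have h3 : ∑ n ∈ NS, 2 * X * Real.exp (-((n : ℝ) / (100 * Real.log n)))
        ≤ ∑ n ∈ Ico n₁' (2 * X + 1), 2 * X * Real.exp (-((n : ℝ) / (100 * Real.log n))) := by
      apply sum_le_sum_of_subset_of_nonneg
      · intro n hn
        rw [hNS, mem_filter, mem_Ico] at hn
        rw [mem_Ico]
        exact ⟨(le_max_right _ _).trans hn.1.1, hn.1.2⟩
      · intro n _ _
        positivity
    have h4 := hn₁' (2 * X + 1)
    calc ((NS.biUnion B).card : ℝ)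
        ≤ ∑ n ∈ Ico n₁' (2 * X + 1), 2 * X * Real.exp (-((n : ℝ) / (100 * Real.log n))) :=
          h1.trans (h2.trans h3)
      _ = 2 * X * ∑ n ∈ Ico n₁' (2 * X + 1), Real.exp (-((n : ℝ) / (100 * Real.log n))) := by
          rw [mul_sum]
      _ ≤ 2 * X * (δ / 2) := by gcongr
      _ = δ * X := by ring
  refine le_trans ?_ hcard
  rw [← Set.ncard_coe_finset]
  exact_mod_cast Set.ncard_le_ncard hsub (Finset.finite_toSet _)

end Pool.Agent.Helper73.SM
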